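import Pool.Agent.helper74.VQ.Defs
import Pool.Agent.helper62.RS.All
import Pool.Agent.helper29.RS.SpecK

/-!
# Project VQ (MP_07c750_an), block 1: the disc coordinate and the exact frame, rows `vq:X`

`v = cd (g⁻¹ z)` is the disc coordinate of `z` in the frame `g`, `|v| < 2`. The packets `Gp (g, E)` are a radial profile `b0 (|v|)` times the plane wave `exp (i R ρ v₁)`. For a fixed base point `g i` and all directions `g kM θ` and energies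
the coefficients `QF φ (g kM θ, E)` are the values of ONE Fourier transform on `ℂ = ℝ²` at the points `ξ = ρ e^(2iθ)` (`ρ² = U (g i) + 2 E`, `ρ dρ = dE`); Plancherel and unfolding give an exact isometry (row VIS).

EVERYTHING IS STATED FOR TWO SETTINGS (`Dm Γ F`): a closed surface `Γ \ ℍ` with a fundamental domain `F`, and the trivial group `Γ = ⊥`, `F = univ` (the plane), where all functions have bounded support.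

RULES: as in `Defs.lean`. Row `vq:XXX`: file `Pool/Agent/<seat>/VQ/XXX.lean`, theorem `XXX_proof : XXX_stmt`, auxiliary lemmas prefixed `XXX_`. All rows of QU, RS may be used: `RS.A_GLC`, `RS.A_GMG`, `RS.A_GLI`, `RS.A_GRI`, `RS.A_GFD` ... (helper62/RS/All), `QU.INV_proof`, ...
-/

open scoped MatrixGroups ContDiff Topology UpperHalfPlane ComplexConjugate ENNReal
open UpperHalfPlane MeasureTheory Filter Set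

namespace Pool.Agent.VQ

open Pool.Agent.RS

noncomputable section

/-- the two settings: a closed surface, or the hyperbolic plane itself -/
def Dm (Γ : Subgroup SL(2, ℝ)) (F : Set ℍ) : Prop := (QU.SurfaceGroup Γ ∧ QU.NiceDom Γ F) ∨ (Γ = ⊥ ∧ F = univ)

/-- continuous invariant functions on `ℍ`; the support is bounded modulo `Γ` -/
structure FH (Γ : Subgroup SL(2, ℝ)) (F : Set ℍ) (φ : ℍ → ℂ) : Prop where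
  cont : Continuous φ
  inv : ∀ (γ : Γ) (z : ℍ), φ (γ • z) = φ z
  supp : ∃ b : ℝ, ∀ z ∈ F, φ z ≠ 0 → dist z I ≤ b

/-- bounded measurable invariant functions on phase space; the support is bounded modulo `Γ` -/
structure FP (Γ : Subgroup SL(2, ℝ)) (F : Set ℍ) (v : SL(2, ℝ) × ℝ → ℂ) : Prop where
  meas : Measurable v
  bdd : ∃ b : ℝ, ∀ p, ‖v p‖ ≤ b
  inv : ∀ (γ : Γ) (p : SL(2, ℝ) × ℝ), v ((γ : SL(2, ℝ)) * p.1, p.2) = v p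
  supp : ∃ b : ℝ, ∀ p, (p.1 • I : ℍ) ∈ F → v p ≠ 0 → dist (p.1 • I : ℍ) I ≤ b

/-- the norm squared on the window `|E| ≤ c R^(-1/4)` -/
def nP (F : Set ℍ) (c R : ℝ) (v : SL(2, ℝ) × ℝ → ℂ) : ℝ := ∫ p in PW F c R, ‖v p‖ ^ 2 ∂mP

/-- the whole phase space with the energy window `|E| ≤ c R^(-1/4)` -/
def GW (c R : ℝ) : Set (SL(2, ℝ) × ℝ) := univ ×ˢ Wi c R

/-- the function on `ℍ` with the packet coefficients `v` in the window `|E| ≤ 2 R^(-1/4)` -/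
def Qs (U : ℍ → ℝ) (ch : ℝ → ℝ) (ζ R : ℝ) (v : SL(2, ℝ) × ℝ → ℂ) (z : ℍ) : ℂ := ∫ q in GW 2 R, v q * Gp U ch ζ R q z ∂mP

/-- the Fourier transform with the frequency `R ξ` -/
def Ft (R : ℝ) (h : ℂ → ℂ) (ξ : ℂ) : ℂ := ∫ v : ℂ, h v * Complex.exp (-(((R * (ξ.re * v.re + ξ.im * v.im) : ℝ) : ℂ) * Complex.I))

/-- continuous invariant functions with values in `[1/2, 2]` -/
structure PU (Γ : Subgroup SL(2, ℝ)) (U : ℍ → ℝ) : Prop where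
  inv : QU.Inv Γ U
  bd : ∀ z, 1 / 2 ≤ U z ∧ U z ≤ 2

/-! ## The disc coordinate -/

/-- **Row VCD** (short; pure). `cd` is the Cayley transform. `kM θ • z = (cos θ z + sin θ)/(- sin θ z + cos θ)`: `z' - i = e^(iθ) (z - i)/(..)`, `z' + i = e^(-iθ) (z + i)/(..)`. `tt z I = |z - i|²/(2 Im z)`, `|z + i|² = |z - i|² + 4 Im z`.
Distances (RS/QU row TTT: `tt = cosh dist - 1`): `‖cd z‖ = 2 tanh (dist z I / 2) ≤ dist z I`, and `dist z I ≤ 2 ‖cd z‖` for `‖cd z‖ ≤ 1`. Smoothness: `((g • cdi v : ℍ) : ℂ)` is a Möbius transformation of `v`; `onC (fun z => cd (g • z))` is a Möbius transformation with the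
denominator `≠ 0` on the upper half plane. -/
def VCD_stmt : Prop :=
  (∀ z : ℍ, ‖cd z‖ < 2 ∧ cdi (cd z) = z) ∧ (∀ v : ℂ, ‖v‖ < 2 → cd (cdi v) = v ∧ ((cdi v : ℍ) : ℂ) = Complex.I * (2 + v) / (2 - v)) ∧ cd I = 0 ∧
  (∀ (θ : ℝ) (z : ℍ), cd (kM θ • z) = Complex.exp (((2 * θ : ℝ) : ℂ) * Complex.I) * cd z) ∧
  (∀ z : ℍ, ‖cd z‖ ^ 2 * (QU.tt z I + 2) = 4 * QU.tt z I) ∧ (∀ z : ℍ, ‖cd z‖ ≤ dist z I) ∧ (∀ z : ℍ, ‖cd z‖ ≤ 1 → dist z I ≤ 2 * ‖cd z‖) ∧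
  Continuous cd ∧ (∀ g : SL(2, ℝ), ContinuousOn (fun v : ℂ => g • cdi v) (Metric.ball 0 2)) ∧
  (∀ g : SL(2, ℝ), ContDiffOn ℝ ∞ (fun v : ℂ => ((g • cdi v : ℍ) : ℂ)) (Metric.ball 0 2)) ∧
  ∀ g : SL(2, ℝ), QU.CD ∞ (fun z : ℍ => cd (g • z))

/-- **Row VCM** (change of variables; medium; from VCD, QU.INV). `z = cdi v`, `dz = (1 - |v|²/4)^(-2) dv`: `|dw/dv| = 4/|2 - v|²`, `Im w = (4 - |v|²)/|2 - v|²` (`integral_image_eq_integral_abs_det_fderiv_smul`, `lintegral_image_eq_lintegral_abs_det_fderiv_mul`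
for the injective holomorphic map `ball 0 2 → {0 < im}`; the determinant of a complex linear map is `|.|²`); the frame `g`: invariance of the measure. -/
def VCM_stmt : Prop := (∀ (E : Type) [NormedAddCommGroup E] [NormedSpace ℝ E] (g : SL(2, ℝ)) (f : ℍ → E),
    ∫ z : ℍ, f z = ∫ v in Metric.ball (0 : ℂ) 2, jd v • f (g • cdi v)) ∧
  (∀ (g : SL(2, ℝ)) (f : ℍ → ENNReal), Measurable f → ∫⁻ z : ℍ, f z = ∫⁻ v in Metric.ball (0 : ℂ) 2, ENNReal.ofReal (jd v) * f (g • cdi v)) ∧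
  ∀ (g : SL(2, ℝ)) (f : ℍ → ℂ), Integrable f ↔ IntegrableOn (fun v : ℂ => (jd v : ℂ) * f (g • cdi v)) (Metric.ball (0 : ℂ) 2)

/-- **Row VLP** (the Laplacian in the disc coordinate; medium; from VCD). `Δ_v (φ ∘ m) = |m'|² (Δφ) ∘ m` for a holomorphic map `m` (`m(v) = g • cdi v`), `|m'|² = (Im m)² (1 - |v|²/4)^(-2)` (for `g = 1` direct, in general the invariance of the metric: `Im (g z) = Im z |g'(z)|`).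
Second part: the first for `φ z = A (cd (g⁻¹ • z))`, `φ (g • cdi v) = A v`. -/
def VLP_stmt : Prop := (∀ (φ : ℍ → ℂ) (g : SL(2, ℝ)) (v : ℂ), QU.CD 2 φ → ‖v‖ < 2 → ContDiffAt ℝ 2 (fun w : ℂ => φ (g • cdi w)) v ∧
    QU.lap φ (g • cdi v) = -(((1 - ‖v‖ ^ 2 / 4) ^ 2 : ℝ) : ℂ) * (fderiv ℝ (fderiv ℝ fun w : ℂ => φ (g • cdi w)) v 1 1 + fderiv ℝ (fderiv ℝ fun w : ℂ => φ (g • cdi w)) v Complex.I Complex.I)) ∧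
  ∀ (A : ℂ → ℂ) (g : SL(2, ℝ)), ContDiff ℝ 2 A → QU.CD 2 (fun z : ℍ => A (cd (g⁻¹ • z))) ∧
    ∀ z : ℍ, QU.lap (fun z : ℍ => A (cd (g⁻¹ • z))) z = -(((1 - ‖cd (g⁻¹ • z)‖ ^ 2 / 4) ^ 2 : ℝ) : ℂ) *
      (fderiv ℝ (fderiv ℝ A) (cd (g⁻¹ • z)) 1 1 + fderiv ℝ (fderiv ℝ A) (cd (g⁻¹ • z)) Complex.I Complex.I)

/-- **Row VDV** (the moving frame; medium; from VCD). `(γ⁻¹)' = - X γ⁻¹` for `γ' = γ X` (entries; the inverse of an element of `SL(2, ℝ)` is the adjugate matrix). `z ↦ cd (exp (-s X) w)`: with `w = γ⁻¹ z`, entries `a, b, c, d` of `γ⁻¹`, `cd (γ⁻¹ • z)` is a quotient of linear functions of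
the entries; its derivative is `-(X♯ v)` with `X♯ v = α (1 - v²/4) + β i v` for `X = α A0 + β K0`. -/
def VDV_stmt : Prop := ∀ (γ : ℝ → SL(2, ℝ)) (t α β : ℝ) (z : ℍ), (∀ i j, HasDerivAt (fun s => (γ s).1 i j) (((γ t).1 * (α • A0 + β • K0)) i j) t) →
  HasDerivAt (fun s => cd ((γ s)⁻¹ • z)) (-((α : ℂ) * (1 - cd ((γ t)⁻¹ • z) ^ 2 / 4) + (β : ℂ) * (Complex.I * cd ((γ t)⁻¹ • z)))) t

/-! ## Plancherel -/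

/-- **Row VPL** (Plancherel; short-medium; pure). Mathlib's Fourier transform and Plancherel on the inner product space `ℂ` (`⟪v, ξ⟫ = ξ.re v.re + ξ.im v.im`), scaled by `R/(2π)`: `Ft R h ξ = 𝓕 h (R ξ/(2π))`. -/
def VPL_stmt : Prop := ∀ (R : ℝ) (h : ℂ → ℂ), 0 < R → Integrable h → MemLp h 2 → Continuous (Ft R h) ∧
  ∫⁻ ξ : ℂ, ‖Ft R h ξ‖ₑ ^ 2 = ENNReal.ofReal ((2 * Real.pi / R) ^ 2 * ∫ v : ℂ, ‖h v‖ ^ 2)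

/-- **Row VPO** (polar coordinates; medium; pure). `ρ = √(u + 2 E)`, `ρ dρ = dE` maps `(-u/2, ∞)` onto `(0, ∞)`; the angle `2θ`, `θ ∈ (0, 2π]`, covers the circle twice: `∫_0^(2π) F(2θ) dθ = ∫_0^(2π) F(θ) dθ`. `Complex.lintegral_comp_polarCoord_symm`. -/
def VPO_stmt : Prop := ∀ (u : ℝ) (f : ℂ → ENNReal), 0 < u → Measurable f →
  ∫⁻ θ in Ioc 0 (2 * Real.pi), ∫⁻ E in {E : ℝ | -(u / 2) < E}, f ((Real.sqrt (u + 2 * E) : ℂ) * Complex.exp (((2 * θ : ℝ) : ℂ) * Complex.I)) = ∫⁻ ξ : ℂ, f ξ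

/-- **Row VBR** (the profile; medium; from VCD, VCM). `b0` is supported in `R^(1-2ζ) |v|² ≤ 1`. `bR = ∫ b0² jd² dv` (VCM), between `∫_(|v|² ≤ R^(2ζ-1)/2) e^(-R|v|²) dv = (π/R)(1 - exp(-R^(2ζ)/2))` and `(1 - R^(2ζ-1)/4)^(-4) π/R`. For `R ≥ R0`. -/
def VBR_stmt : Prop := ∀ (ch : ℝ → ℝ) (ζ : ℝ), CH ch → 0 < ζ → ζ ≤ 1 / 8 → ∃ R0 : ℝ, 1 ≤ R0 ∧ ∀ R : ℝ, R0 ≤ R →
  ContDiff ℝ ∞ (b0 ch ζ R) ∧ (∀ v, b0 ch ζ R v ≠ 0 → ‖v‖ ≤ R ^ (-(1 / 2) + ζ)) ∧ (∀ v, 0 ≤ b0 ch ζ R v ∧ b0 ch ζ R v ≤ Real.exp (-(R * ‖v‖ ^ 2 / 2))) ∧ R ^ (-(1 / 2) + ζ) ≤ 1 / 4 ∧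
  (1 - R ^ (-(1 / 2) : ℝ)) * (Real.pi / R) ≤ bR ch ζ R ∧ bR ch ζ R ≤ (1 + R ^ (-(1 / 2) : ℝ)) * (Real.pi / R) ∧
  cR ch ζ R ^ 2 * bR ch ζ R = R ^ 2 / (2 * Real.pi) ∧ R ^ (3 / 2 : ℝ) / 8 ≤ cR ch ζ R ∧ cR ch ζ R ≤ R ^ (3 / 2 : ℝ)

/-- **Row VQF** (the coefficients are a Fourier transform; short-medium; from VCD, VCM, VBR). `(g kM θ)⁻¹ z` has the disc coordinate `e^(-2iθ) v`, `Re (e^(-2iθ) v) = ⟨e^(2iθ), v⟩`, `(g kM θ) i = g i`; VCM with the frame `g`. -/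
def VQF_stmt : Prop := ∀ (ch : ℝ → ℝ) (ζ : ℝ), CH ch → 0 < ζ → ζ ≤ 1 / 8 → ∃ R0 : ℝ, 1 ≤ R0 ∧ ∀ (R : ℝ) (U : ℍ → ℝ) (φ : ℍ → ℂ) (g : SL(2, ℝ)) (θ E : ℝ), R0 ≤ R → Continuous φ →
  QF U ch ζ R φ (g * kM θ, E) = (cR ch ζ R : ℂ) * Ft R (fun v => if ‖v‖ < 2 then φ (g • cdi v) * ((b0 ch ζ R v * jd v : ℝ) : ℂ) else 0)
    ((Real.sqrt (U (g • I) + 2 * E) : ℂ) * Complex.exp (((2 * θ : ℝ) : ℂ) * Complex.I))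

/-! ## The two settings -/

/-- **Row VDM** (short-medium; from RS.GMG, RS.GLI, QU.DOB, QU.INV). Facts for both settings. Countability: `ℍ` is a countable union of compact sets, `discrete`. Measurability of `cd`, `Gp` etc. is in VQS. -/
def VDM_stmt : Prop := ∀ (Γ : Subgroup SL(2, ℝ)) (F : Set ℍ), Dm Γ F → Countable Γ ∧ MeasurableSet F ∧ (∀ z : ℍ, ∃! γ : Γ, γ • z ∈ F) ∧
  (∀ γ : Γ, MeasurePreserving (fun z : ℍ => γ • z) volume volume) ∧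
  ∀ W : Set ℝ, MeasurableSet W → SigmaFinite (mP.restrict (univ ×ˢ W)) ∧
    (∀ g : SL(2, ℝ), MeasurePreserving (fun p : SL(2, ℝ) × ℝ => (g * p.1, p.2)) (mP.restrict (univ ×ˢ W)) (mP.restrict (univ ×ˢ W))) ∧
    (∀ g : SL(2, ℝ), MeasurePreserving (fun p : SL(2, ℝ) × ℝ => (p.1 * g, p.2)) (mP.restrict (univ ×ˢ W)) (mP.restrict (univ ×ˢ W))) ∧
    (mP.restrict (univ ×ˢ W)).restrict (dG F ×ˢ univ) = mP.restrict (dG F ×ˢ W) ∧ MeasurableSet (dG F) ∧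
    (∀ b : ℝ, mP ({g | dist (g • I : ℍ) I ≤ b} ×ˢ (W ∩ Icc (-1) 1)) < ⊤)

/-- **Row VSH** (Schur test on quotients; short-medium; pure). Unfolding: `∫_X f = ∫_DX Σ_γ f (γ x)` (`f` measurable `≥ 0`), so `∫_(x ∈ DX) ∫_Y K = Σ_γ ∫_(x ∈ DX) ∫_(y ∈ DY) K (x, γ y) = Σ_γ ∫∫ K (γ⁻¹ x, y)`. Second part: Cauchy-Schwarz `(∫ K v)² ≤ (∫ K) (∫ K v²) ≤ a ∫ K v²`, then the first part
for the kernel `K x y v(y)²`. -/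
def VSH_stmt : Prop := ∀ (Γ : Type) [Group Γ] [Countable Γ] (X Y : Type) [MeasurableSpace X] [MeasurableSpace Y] [MulAction Γ X] [MulAction Γ Y] (μ : Measure X) (ν : Measure Y) [SigmaFinite μ] [SigmaFinite ν] (DX : Set X) (DY : Set Y),
  (∀ γ : Γ, MeasurePreserving (fun x : X => γ • x) μ μ) → (∀ γ : Γ, MeasurePreserving (fun y : Y => γ • y) ν ν) → (∀ x : X, ∃! γ : Γ, γ • x ∈ DX) → (∀ y : Y, ∃! γ : Γ, γ • y ∈ DY) → MeasurableSet DX → MeasurableSet DY →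
  ∀ K : X → Y → ENNReal, Measurable (Function.uncurry K) → (∀ (γ : Γ) x y, K (γ • x) (γ • y) = K x y) →
    (∫⁻ x in DX, ∫⁻ y, K x y ∂ν ∂μ = ∫⁻ y in DY, ∫⁻ x, K x y ∂μ ∂ν) ∧
    ∀ (a b : ENNReal) (v : Y → ENNReal), Measurable v → (∀ (γ : Γ) y, v (γ • y) = v y) → (∀ x, ∫⁻ y, K x y ∂ν ≤ a) → (∀ y, ∫⁻ x, K x y ∂μ ≤ b) →
      ∫⁻ x in DX, (∫⁻ y, K x y * v y ∂ν) ^ 2 ∂μ ≤ a * b * ∫⁻ y in DY, v y ^ 2 ∂ν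

/-! ## The frame -/

/-- **Row VQS** (regularity; medium; from VBR, VCD, VDM). `(p, z) ↦ Gp p z` is continuous (for `Continuous U`), bounded by `R^(3/2)`, `≠ 0` only for `dist (g i) z ≤ 2 R^(-1/2+ζ) ≤ 1`; `Gp (γ g, E) (γ z) = Gp (g, E) z` for `U` invariant. Dominated convergence on compact sets. -/
def VQS_stmt : Prop := ∀ (ch : ℝ → ℝ) (ζ : ℝ), CH ch → 0 < ζ → ζ ≤ 1 / 8 → ∃ R0 : ℝ, 1 ≤ R0 ∧ ∀ (R : ℝ) (Γ : Subgroup SL(2, ℝ)) (F : Set ℍ) (U : ℍ → ℝ), R0 ≤ R → Dm Γ F → PU Γ U →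
  Continuous (fun x : (SL(2, ℝ) × ℝ) × ℍ => Gp U ch ζ R x.1 x.2) ∧ (∀ p z, ‖Gp U ch ζ R p z‖ ≤ R ^ (3 / 2 : ℝ) ∧ (Gp U ch ζ R p z ≠ 0 → dist (p.1 • I : ℍ) z ≤ 2 * R ^ (-(1 / 2) + ζ))) ∧
  (∀ (γ : Γ) (p : SL(2, ℝ) × ℝ) (z : ℍ), Gp U ch ζ R ((γ : SL(2, ℝ)) * p.1, p.2) (γ • z) = Gp U ch ζ R p z) ∧
  (∀ φ, FH Γ F φ → Continuous (QF U ch ζ R φ) ∧ FP Γ F (QF U ch ζ R φ)) ∧
  (∀ v, FP Γ F v → FH Γ F (Qs U ch ζ R v)) ∧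
  ∀ φ v, FH Γ F φ → FP Γ F v → ∫ p in PW F 2 R, QF U ch ζ R φ p * conj (v p) ∂mP = ∫ z in F, φ z * conj (Qs U ch ζ R v z)

/-- **Row VIS** (THE EXACT ISOMETRY; medium; from VQF, VPL, VPO, VBR, VCM, VDM, VQS, RS.GMG). Fourth part of RS.GMG: the integral over `dG F` is the integral over `z ∈ F` and `θ ∈ (0, 2π]` (with `1/(2π)`), `g = toSL2R z * kM θ`. For fixed `z`: VQF, VPO, VPL give
`(2π)⁻¹ c_R² (2π/R)² ∫ |φ (g • cdi v)|² b0² jd² dv = (2π/R²) c_R² ∫_ℍ |φ w|² k (tt z w) dw`, `k = b0 (cd (g⁻¹ w))² jd (cd (g⁻¹ w))` is a function of `tt z w` (VCD), so symmetric in `z, w`. Unfolding (invariance; VDM): `∫_(z ∈ F) ∫_(w ∈ ℍ) |φ w|² k = ∫_(w ∈ F) |φ w|² ∫_(z ∈ ℍ) k = bR ∫_F |φ|²`, and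
`(2π/R²) c_R² bR = 1`. -/
def VIS_stmt : Prop := ∀ (ch : ℝ → ℝ) (ζ : ℝ), CH ch → 0 < ζ → ζ ≤ 1 / 8 → ∃ R0 : ℝ, 1 ≤ R0 ∧ ∀ (R : ℝ) (Γ : Subgroup SL(2, ℝ)) (F : Set ℍ) (U : ℍ → ℝ) (φ : ℍ → ℂ), R0 ≤ R → Dm Γ F → PU Γ U → FH Γ F φ →
  ∫⁻ g in dG F, (∫⁻ E in {E : ℝ | -(U (g • I) / 2) < E}, ‖QF U ch ζ R φ (g, E)‖ₑ ^ 2) ∂mG = ENNReal.ofReal (nn F φ)

/-- **Row VQA** (short-medium; from VIS, VQS). (1) `nP F 2 R (QF φ) ≤ nn F φ`: VIS (the window is part of `E > -U/2`: `2 R^(-1/4) ≤ 1/8`). (2) duality: `‖Qs v‖² = ∫ QF (Qs v) conj v ≤ ‖QF (Qs v)‖ ‖v‖ ≤ ‖Qs v‖ ‖v‖`.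
(3) `u = Qs (QF φ) - φ`: by VIS (polarised) `∫_F u conj u = ∫_(PW) QF φ conj QF u - ∫_all QF φ conj QF u = - ∫_(E ∉ Wi 2) QF φ conj QF u ≤ (∫_(E ∉ Wi 2) |QF φ|²)^(1/2) ‖u‖`. -/
def VQA_stmt : Prop := ∀ (ch : ℝ → ℝ) (ζ : ℝ), CH ch → 0 < ζ → ζ ≤ 1 / 8 → ∃ R0 : ℝ, 1 ≤ R0 ∧ ∀ (R : ℝ) (Γ : Subgroup SL(2, ℝ)) (F : Set ℍ) (U : ℍ → ℝ), R0 ≤ R → Dm Γ F → PU Γ U →
  (∀ φ, FH Γ F φ → nP F 2 R (QF U ch ζ R φ) ≤ nn F φ ∧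
    nn F (fun z => Qs U ch ζ R (QF U ch ζ R φ) z - φ z) ≤ (∫⁻ g in dG F, (∫⁻ E in {E : ℝ | -(U (g • I) / 2) < E} \ Wi 2 R, ‖QF U ch ζ R φ (g, E)‖ₑ ^ 2) ∂mG).toReal) ∧
  ∀ v, FP Γ F v → nn F (Qs U ch ζ R v) ≤ nP F 2 R v

/-- **Row VEG** (energy localisation for a fixed base point; medium; from VQF, VPL, VPO, VLP, VBR). `H v = φ (g • cdi v) b0 v jd v` is `C²` with compact support. `R² |ξ|² Ft H (ξ) = Ft (-ΔH) (ξ)`, `-ΔH = (-Δφ~) β - 2 ∇φ~ ∇β - φ~ Δβ`, `β = b0 jd`, `φ~ v = φ (g • cdi v)`, `-Δφ~ = (lap φ)~ (1 - |v|²/4)^(-2)` (VLP). So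
`R² (|ξ|² - U(g i) - 2 E0) Ft H = Ft (X)`, `X = [(lap φ - R² (U + 2 E0) φ)~ (1-|v|²/4)^(-2) + R² ((U~ + 2 E0)(1-|v|²/4)^(-2) - U(g i) - 2 E0) φ~] β - 2 ∇φ~ ∇β - φ~ Δβ`, and `|ξ|² - U(g i) - 2 E0 = 2 (E - E0)`. On `|v| ≤ R^(-1/2+ζ)`: `|(U~ + 2 E0)(..) - U(g i) - 2 E0| ≤ C R^(-1/2+ζ)` (`|∇U~| ≤ L`), `β ≤ 2`,
`|∇β| ≤ C R^(1/2+ζ)`, `|Δβ| ≤ C R^(1+2ζ)` (`C` depends on `ch`). Plancherel, `(X)² ≤ 3 Σ`. Constants are absorbed by `R^ζ`. -/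
def VEG_stmt : Prop := ∀ (ch : ℝ → ℝ) (ζ L : ℝ), CH ch → 0 < ζ → ζ ≤ 1 / 8 → ∃ R0 : ℝ, 1 ≤ R0 ∧ ∀ (R : ℝ) (U : ℍ → ℝ) (φ : ℍ → ℂ) (g : SL(2, ℝ)) (E0 : ℝ), R0 ≤ R → QU.CD 2 φ → Continuous U → (∀ z, 1 / 2 ≤ U z ∧ U z ≤ 2) → (∀ v : ℂ, ‖v‖ ≤ 1 → |Ug U g v - Ug U g 0| ≤ L * ‖v‖) → |E0| ≤ 1 / 16 →
  ∫⁻ θ in Ioc 0 (2 * Real.pi), ∫⁻ E in {E : ℝ | -(U (g • I) / 2) < E}, ENNReal.ofReal ((E - E0) ^ 2) * ‖QF U ch ζ R φ (g * kM θ, E)‖ₑ ^ 2 ≤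
    ENNReal.ofReal (R ^ (1 + ζ) * ∫ v in Metric.closedBall (0 : ℂ) (R ^ (-(1 / 2) + ζ)), (R ^ (-4 : ℝ) * ‖QU.lap φ (g • cdi v) - ((R ^ 2 * (U (g • cdi v) + 2 * E0) : ℝ) : ℂ) * φ (g • cdi v)‖ ^ 2 +
      R ^ (-1 + 4 * ζ) * ‖φ (g • cdi v)‖ ^ 2 + R ^ (-3 + 4 * ζ) * (‖fderiv ℝ (fun w : ℂ => φ (g • cdi w)) v 1‖ ^ 2 + ‖fderiv ℝ (fun w : ℂ => φ (g • cdi w)) v Complex.I‖ ^ 2)))

/-- **Row VGD** (the Dirichlet integral; medium; from VCM, VDM, VLP, QU.GRN, RS rows). For `φ` of class `C²`, in `FH`: `∫_(g ∈ dG F) ∫_(|v| ≤ s) |∇φ~|² dv ≤ π s² ∫_F |∇φ|²`, `∫_F |∇φ|² = Re ∫_F (lap φ) conj φ` (Green), and Cauchy-Schwarz with `lap φ = R² (U + 2 E0) φ + (rest)`: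
`≤ 4 R² ∫_F |φ|² + R^(-2) ∫_F |lap φ - R² (U + 2 E0) φ|²`. First part: the integrals of `|f~|²` over the balls for continuous invariant `f` with bounded support. Here `∇φ~` at `v` is the gradient at the point `g • cdi v`: `|∇φ~(v)|² = (1-|v|²/4)^(-2) |∇φ|²(g • cdi v)`, `|∇φ|² = |dX φ|² + |dY φ|²`. -/
def VGD_stmt : Prop := ∀ (Γ : Subgroup SL(2, ℝ)) (F : Set ℍ), Dm Γ F →
  (∀ (f : ℍ → ℂ) (s : ℝ), FH Γ F f → 0 < s → s ≤ 1 / 2 → ∫ g in dG F, (∫ v in Metric.closedBall (0 : ℂ) s, ‖f (g • cdi v)‖ ^ 2) ∂mG ≤ 4 * s ^ 2 * nn F f) ∧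
  ∀ (φ : ℍ → ℂ) (U : ℍ → ℝ) (s R E0 : ℝ), FH Γ F φ → QU.CD 2 φ → PU Γ U → 0 < s → s ≤ 1 / 2 → 1 ≤ R → |E0| ≤ 1 / 16 →
    ∫ g in dG F, (∫ v in Metric.closedBall (0 : ℂ) s, (‖fderiv ℝ (fun w : ℂ => φ (g • cdi w)) v 1‖ ^ 2 + ‖fderiv ℝ (fun w : ℂ => φ (g • cdi w)) v Complex.I‖ ^ 2)) ∂mG ≤
      4 * s ^ 2 * (4 * R ^ 2 * nn F φ + (R ^ 2)⁻¹ * nn F (fun z => QU.lap φ z - ((R ^ 2 * (U z + 2 * E0) : ℝ) : ℂ) * φ z))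

/-- **Row VEL** (ENERGY LOCALISATION; short-medium; from VEG, VGD, RS.GMG, VQS). Integrate VEG over the base points (`g = toSL2R z * kM θ`; for measurability: `QF φ` is continuous) and use VGD with `s = R^(-1/2+ζ)`. -/
def VEL_stmt : Prop := ∀ (ch : ℝ → ℝ) (ζ L : ℝ), CH ch → 0 < ζ → ζ ≤ 1 / 8 → ∃ R0 : ℝ, 1 ≤ R0 ∧ ∀ (R : ℝ) (Γ : Subgroup SL(2, ℝ)) (F : Set ℍ) (U : ℍ → ℝ) (φ : ℍ → ℂ) (E0 : ℝ), R0 ≤ R → Dm Γ F → PU Γ U →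
  (∀ (g : SL(2, ℝ)) (v : ℂ), ‖v‖ ≤ 1 → |Ug U g v - Ug U g 0| ≤ L * ‖v‖) → |E0| ≤ 1 / 16 → FH Γ F φ → QU.CD 2 φ →
  ∫⁻ g in dG F, (∫⁻ E in {E : ℝ | -(U (g • I) / 2) < E}, ENNReal.ofReal ((E - E0) ^ 2) * ‖QF U ch ζ R φ (g, E)‖ₑ ^ 2) ∂mG ≤
    ENNReal.ofReal (R ^ (8 * ζ) * (R ^ (-4 : ℝ) * nn F (fun z => QU.lap φ z - ((R ^ 2 * (U z + 2 * E0) : ℝ) : ℂ) * φ z) + R ^ (-1 : ℝ) * nn F φ))

end

end Pool.Agent.VQ
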