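import Pool.Agent.helper11.RPQ.Defs

/-!
# MP_07c750 (quantum unique ergodicity), project VQ: common notions

QUE in full for one fixed negatively curved metric `e^F g` on every closed hyperbolic surface, for almost every `F` of an explicit family.
Paper: /team-store/VQ_defs.md (definitions, interfaces) and the pages of the blocks.

RULES. Row `vq:XXX`: file `Pool/Agent/<seat>/VQ/XXX.lean`, `import` the spec of the row, `set_option autoImplicit false`, namespace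
`Pool.Agent.VQ`, auxiliary lemmas prefixed `XXX_`, theorem `XXX_proof (h..) : XXX_stmt` (rows listed in `from` may be used as hypotheses `(h : YYY_stmt)`).
No `convert`, `congr!`, `native_decide`, no double quotes, no `private`.
-/

open scoped MatrixGroups ContDiff Topology UpperHalfPlane ComplexConjugate
open UpperHalfPlane MeasureTheory Filter Set

namespace Pool.Agent.VQ

open Pool.Agent.RS
open Pool.Agent.RPQ (CEig mean VV)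

noncomputable section

/-! ## The disc coordinate -/

/-- the disc coordinate `2 (z - i)/(z + i)`, `‖cd z‖ < 2` -/
def cd (z : ℍ) : ℂ := 2 * ((z : ℂ) - Complex.I) / ((z : ℂ) + Complex.I)

/-- its inverse on the disc of radius `2` -/
def cdi (v : ℂ) : ℍ := ofComplex (Complex.I * (2 + v) / (2 - v))

/-- the weight `(1 - |v|²/4)^(-2)`: `dz = jd v dv` -/
def jd (v : ℂ) : ℝ := ((1 - ‖v‖ ^ 2 / 4) ^ 2)⁻¹

/-! ## Potentials -/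

/-- the potential in the disc coordinate of the frame `g` -/
def Ug (U : ℍ → ℝ) (g : SL(2, ℝ)) (v : ℂ) : ℝ := U (g • cdi v)

/-- potentials `U = e^F`: smooth, invariant, `C³`-close to `1`, all derivatives bounded -/
structure Pot (Γ : Subgroup SL(2, ℝ)) (δ : ℝ) (B : ℕ → ℝ) (U : ℍ → ℝ) : Prop where
  smooth : QU.CD ∞ U
  inv : QU.Inv Γ U
  near : ∀ (g : SL(2, ℝ)) (v : ℂ), ‖v‖ ≤ 1 → ∀ n ≤ 3, ‖iteratedFDeriv ℝ n (fun w => Ug U g w - 1) v‖ ≤ δ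
  bd : ∀ (g : SL(2, ℝ)) (v : ℂ), ‖v‖ ≤ 1 → ∀ n, ‖iteratedFDeriv ℝ n (Ug U g) v‖ ≤ B n

/-- derivative of the potential in the direction of the frame -/
def n1 (U : ℍ → ℝ) (g : SL(2, ℝ)) : ℝ := fderiv ℝ (Ug U g) 0 1

/-- derivative of the potential in the normal direction -/
def n2 (U : ℍ → ℝ) (g : SL(2, ℝ)) : ℝ := fderiv ℝ (Ug U g) 0 Complex.I

/-- the basis `1, i` of `ℂ` -/
def eb (i : Fin 2) : ℂ := if i = 0 then 1 else Complex.I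

/-- the Hessian of the potential -/
def hess (U : ℍ → ℝ) (g : SL(2, ℝ)) : Matrix (Fin 2) (Fin 2) ℝ :=
  fun i j => fderiv ℝ (fderiv ℝ (Ug U g)) 0 (eb i) (eb j)

/-- the speed at the energy `E` -/
def rho (U : ℍ → ℝ) (E : ℝ) (g : SL(2, ℝ)) : ℝ := Real.sqrt (U (g • I) + 2 * E)

/-- the angular speed -/
def kap (U : ℍ → ℝ) (E : ℝ) (g : SL(2, ℝ)) : ℝ := n2 U g / (2 * rho U E g)

/-- generator of `aM` -/
def A0 : Matrix (Fin 2) (Fin 2) ℝ := !![1 / 2, 0; 0, -(1 / 2)]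

/-- generator of `s ↦ kM (s/2)` -/
def K0 : Matrix (Fin 2) (Fin 2) ℝ := !![0, 1 / 2; -(1 / 2), 0]

/-- the vector field of the flow in the left trivialisation -/
def XX (U : ℍ → ℝ) (E : ℝ) (g : SL(2, ℝ)) : Matrix (Fin 2) (Fin 2) ℝ := rho U E g • A0 + kap U E g • K0

/-- the rotation matrix of the linear system -/
def JJ : Matrix (Fin 2) (Fin 2) ℂ := !![0, 1; -1, 0]

/-- the matrix `hess/2 + rho² diag(0,1)` -/
def KK (U : ℍ → ℝ) (E : ℝ) (g : SL(2, ℝ)) : Matrix (Fin 2) (Fin 2) ℂ :=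
  fun i j => ((hess U g i j / 2 + if i = 1 ∧ j = 1 then rho U E g ^ 2 else 0 : ℝ) : ℂ)

/-! ## Dynamics -/

/-- the potential, the flow and the Gaussian beam data, all as functions of `E`, `t`, `g` -/
structure Dyn where
  U : ℍ → ℝ
  fl : ℝ → ℝ → SL(2, ℝ) → SL(2, ℝ)
  Y : ℝ → ℝ → SL(2, ℝ) → Matrix (Fin 2) (Fin 2) ℂ
  P : ℝ → ℝ → SL(2, ℝ) → Matrix (Fin 2) (Fin 2) ℂ
  S : ℝ → ℝ → SL(2, ℝ) → ℝ
  a : ℝ → ℝ → SL(2, ℝ) → ℂ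

/-- the matrix `M = P Y⁻¹` of the beam -/
def Dyn.M (D : Dyn) (E t : ℝ) (g : SL(2, ℝ)) : Matrix (Fin 2) (Fin 2) ℂ := D.P E t g * (D.Y E t g)⁻¹

/-- the differential equations (for `|E| ≤ 1/8`); everything is trivial for the other `E` -/
structure OKD (Γ : Subgroup SL(2, ℝ)) (δ : ℝ) (B : ℕ → ℝ) (D : Dyn) : Prop where
  pot : Pot Γ δ B D.U
  fl0 : ∀ E g, D.fl E 0 g = g
  out : ∀ E t g, 1 / 8 < |E| → D.fl E t g = g ∧ D.Y E t g = 1 ∧ D.P E t g = Complex.I • 1 ∧ D.S E t g = 0 ∧ D.a E t g = 1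
  dfl : ∀ E t g, |E| ≤ 1 / 8 → ∀ i j, HasDerivAt (fun s => (D.fl E s g).1 i j) (((D.fl E t g).1 * XX D.U E (D.fl E t g)) i j) t
  cfl : ContinuousOn (fun p : ℝ × ℝ × SL(2, ℝ) => D.fl p.1 p.2.1 p.2.2) {p | |p.1| ≤ 1 / 8}
  Y0 : ∀ E g, D.Y E 0 g = 1
  P0 : ∀ E g, D.P E 0 g = Complex.I • 1
  S0 : ∀ E g, D.S E 0 g = 0
  a0 : ∀ E g, D.a E 0 g = 1
  dY : ∀ E t g, |E| ≤ 1 / 8 → ∀ i j, HasDerivAt (fun s => D.Y E s g i j)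
    ((D.P E t g + ((kap D.U E (D.fl E t g) : ℝ) : ℂ) • (JJ * D.Y E t g)) i j) t
  dP : ∀ E t g, |E| ≤ 1 / 8 → ∀ i j, HasDerivAt (fun s => D.P E s g i j)
    ((KK D.U E (D.fl E t g) * D.Y E t g + ((kap D.U E (D.fl E t g) : ℝ) : ℂ) • (JJ * D.P E t g)) i j) t
  dS : ∀ E t g, |E| ≤ 1 / 8 → HasDerivAt (fun s => D.S E s g) ((rho D.U E (D.fl E t g) ^ 2 + D.U (D.fl E t g • I)) / 2) t
  da : ∀ E t g, |E| ≤ 1 / 8 → HasDerivAt (fun s => D.a E s g) (-(1 / 2) * Matrix.trace (D.M E t g) * D.a E t g) t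
  cY : ∀ i j, ContinuousOn (fun p : ℝ × ℝ × SL(2, ℝ) => D.Y p.1 p.2.1 p.2.2 i j) {p | |p.1| ≤ 1 / 8}
  cP : ∀ i j, ContinuousOn (fun p : ℝ × ℝ × SL(2, ℝ) => D.P p.1 p.2.1 p.2.2 i j) {p | |p.1| ≤ 1 / 8}
  cS : ContinuousOn (fun p : ℝ × ℝ × SL(2, ℝ) => D.S p.1 p.2.1 p.2.2) {p | |p.1| ≤ 1 / 8}
  ca : ContinuousOn (fun p : ℝ × ℝ × SL(2, ℝ) => D.a p.1 p.2.1 p.2.2) {p | |p.1| ≤ 1 / 8}

/-! ## Packets -/

/-- cut-off functions -/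
structure CH (ch : ℝ → ℝ) : Prop where
  smooth : ContDiff ℝ ∞ ch
  one : ∀ s ≤ 1 / 2, ch s = 1
  zero : ∀ s, 1 ≤ s → ch s = 0
  bd : ∀ s, 0 ≤ ch s ∧ ch s ≤ 1

/-- the truncated Gaussian -/
def b0 (ch : ℝ → ℝ) (ζ R : ℝ) (v : ℂ) : ℝ := Real.exp (-(R * ‖v‖ ^ 2 / 2)) * ch (R ^ (1 - 2 * ζ) * ‖v‖ ^ 2)

/-- the normalisation -/
def bR (ch : ℝ → ℝ) (ζ R : ℝ) : ℝ := ∫ w : ℍ, b0 ch ζ R (cd w) ^ 2 * jd (cd w)

/-- the constant `c_R` -/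
def cR (ch : ℝ → ℝ) (ζ R : ℝ) : ℝ := Real.sqrt (R ^ 2 / (2 * Real.pi * bR ch ζ R))

/-- the packet of `p = (g, E)` -/
def Gp (U : ℍ → ℝ) (ch : ℝ → ℝ) (ζ R : ℝ) (p : SL(2, ℝ) × ℝ) (z : ℍ) : ℂ :=
  ((cR ch ζ R * b0 ch ζ R (cd (p.1⁻¹ • z)) : ℝ) : ℂ) * Complex.exp (((R * rho U p.2 p.1 * (cd (p.1⁻¹ • z)).re : ℝ) : ℂ) * Complex.I)

/-- the packet coefficients -/
def QF (U : ℍ → ℝ) (ch : ℝ → ℝ) (ζ R : ℝ) (φ : ℍ → ℂ) (p : SL(2, ℝ) × ℝ) : ℂ := ∫ z : ℍ, φ z * conj (Gp U ch ζ R p z)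

/-- the quadratic form of a `2 × 2` matrix on `ℂ = ℝ²` -/
def qf (M : Matrix (Fin 2) (Fin 2) ℂ) (v : ℂ) : ℂ :=
  M 0 0 * ((v.re ^ 2 : ℝ) : ℂ) + (M 0 1 + M 1 0) * ((v.re * v.im : ℝ) : ℂ) + M 1 1 * ((v.im ^ 2 : ℝ) : ℂ)

/-- the beam as a function of the disc coordinate -/
def pv (D : Dyn) (ch : ℝ → ℝ) (ζ ζ1 R t : ℝ) (p : SL(2, ℝ) × ℝ) (v : ℂ) : ℂ :=
  ((cR ch ζ R * ch (R ^ (1 - 2 * ζ1) * ‖v‖ ^ 2) : ℝ) : ℂ) * D.a p.2 t p.1 *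
    Complex.exp (Complex.I * (R : ℂ) * (((D.S p.2 t p.1 + rho D.U p.2 (D.fl p.2 t p.1) * v.re : ℝ) : ℂ) + qf (D.M p.2 t p.1) v / 2))

/-- the beam `ψ_p(t)` -/
def psi (D : Dyn) (ch : ℝ → ℝ) (ζ ζ1 R t : ℝ) (p : SL(2, ℝ) × ℝ) (z : ℍ) : ℂ := pv D ch ζ ζ1 R t p (cd ((D.fl p.2 t p.1)⁻¹ • z))

/-! ## Phase space -/

/-- the measure of `G × ℝ` -/
def mP : Measure (SL(2, ℝ) × ℝ) := mG.prod volume

/-- the energy window `|E| ≤ c R^(-1/4)`. The kernels live on the window `c = 2`; the words start in the window `c = 1`, so that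
the (sharp) cut-off in the energy has no influence on them. -/
def Wi (c R : ℝ) : Set ℝ := Icc (-(c * R ^ (-(1 / 4) : ℝ))) (c * R ^ (-(1 / 4) : ℝ))

/-- the part of phase space which is used, `c ≤ 2` -/
def PW (F : Set ℍ) (c R : ℝ) : Set (SL(2, ℝ) × ℝ) := dG F ×ˢ Wi c R

/-- boxes around `± 1` -/
def Bo (r : ℝ) : Set SL(2, ℝ) :=
  {b | (∀ i j, |b.1 i j - (1 : Matrix (Fin 2) (Fin 2) ℝ) i j| < r) ∨ (∀ i j, |b.1 i j + (1 : Matrix (Fin 2) (Fin 2) ℝ) i j| < r)}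

/-- `q` is in the box of radius `r` around `p` -/
def Nb (r : ℝ) (p q : SL(2, ℝ) × ℝ) : Prop := p.1⁻¹ * q.1 ∈ Bo r ∧ |p.2 - q.2| < r

/-- the flow on phase space -/
def Dyn.ph (D : Dyn) (t : ℝ) (p : SL(2, ℝ) × ℝ) : SL(2, ℝ) × ℝ := (D.fl p.2 t p.1, p.2)

/-- the parameters of the steps: `σ = e3 log R`, `τ = m σ`, the boxes have radius `R^(-1/2+z2)` -/
structure Prm where
  e3 : ℝ
  m : ℕ
  z : ℝ
  z1 : ℝ
  z2 : ℝ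

/-- small step time -/
def Prm.sg (A : Prm) (R : ℝ) : ℝ := A.e3 * Real.log R

/-- big step time -/
def Prm.tu (A : Prm) (R : ℝ) : ℝ := A.m * A.sg R

/-- radius of the boxes -/
def Prm.r (A : Prm) (R : ℝ) : ℝ := R ^ (-(1 / 2) + A.z2)

open Classical in
/-- the small step kernel -/
def us (D : Dyn) (ch : ℝ → ℝ) (A : Prm) (R : ℝ) (p q : SL(2, ℝ) × ℝ) : ℂ :=
  if p.2 ∈ Wi 2 R ∧ q.2 ∈ Wi 2 R ∧ Nb (A.r R) (D.ph (A.sg R) p) q then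
    ∫ z : ℍ, conj (psi D ch A.z A.z1 R (A.sg R) p z) * Gp D.U ch A.z R q z else 0

open Classical in
/-- the truncated reproducing kernel -/
def pr (D : Dyn) (ch : ℝ → ℝ) (A : Prm) (R : ℝ) (p q : SL(2, ℝ) × ℝ) : ℂ :=
  if p.2 ∈ Wi 2 R ∧ q.2 ∈ Wi 2 R ∧ Nb (A.r R) p q then ∫ z : ℍ, conj (Gp D.U ch A.z R p z) * Gp D.U ch A.z R q z else 0

/-- composition of kernels on `G × ℝ` -/
def cmpP (K L : SL(2, ℝ) × ℝ → SL(2, ℝ) × ℝ → ℂ) (p q : SL(2, ℝ) × ℝ) : ℂ := ∫ x, K p x * L x q ∂mP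

/-- `k` small steps and the reproducing kernel -/
def usm (D : Dyn) (ch : ℝ → ℝ) (A : Prm) (R : ℝ) : ℕ → SL(2, ℝ) × ℝ → SL(2, ℝ) × ℝ → ℂ
  | 0 => pr D ch A R
  | k + 1 => cmpP (us D ch A R) (usm D ch A R k)

/-- the big step kernel -/
def ub (D : Dyn) (ch : ℝ → ℝ) (A : Prm) (R : ℝ) : SL(2, ℝ) × ℝ → SL(2, ℝ) × ℝ → ℂ := usm D ch A R A.m

/-- chains of `k` small steps and a final jump -/
def RC (D : Dyn) (s r : ℝ) (W : Set ℝ) : ℕ → SL(2, ℝ) × ℝ → SL(2, ℝ) × ℝ → Prop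
  | 0 => fun p q => p.2 ∈ W ∧ q.2 ∈ W ∧ Nb r p q
  | k + 1 => fun p q => ∃ x, p.2 ∈ W ∧ x.2 ∈ W ∧ Nb r (D.ph s p) x ∧ RC D s r W k x q

/-- `q` can be reached from `p` in one big step -/
def Reach (D : Dyn) (A : Prm) (R : ℝ) (p q : SL(2, ℝ) × ℝ) : Prop := RC D (A.sg R) (A.r R) (Wi 2 R) A.m p q

/-- the phase of a function `f` along the flow -/
def thP (D : Dyn) (f : ℍ → ℝ) (R t : ℝ) (p : SL(2, ℝ) × ℝ) : ℝ := R / 2 * ∫ s in (0 : ℝ)..t, D.U (D.fl p.2 s p.1 • I) * f (D.fl p.2 s p.1 • I)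

/-- the big step kernel with the phase -/
def KB (D : Dyn) (ch : ℝ → ℝ) (A : Prm) (R : ℝ) (f : ℍ → ℝ) (p q : SL(2, ℝ) × ℝ) : ℂ :=
  Complex.exp (-(((thP D f R (A.tu R) p : ℝ) : ℂ) * Complex.I)) * ub D ch A R p q

/-- time averages along the flow -/
def avP (D : Dyn) (h : ℍ → ℝ) (t : ℝ) (p : SL(2, ℝ) × ℝ) : ℝ := t⁻¹ * ∫ s in (0 : ℝ)..t, h (D.fl p.2 s p.1 • I)

/-- the bad set -/
def BadP (D : Dyn) (F : Set ℍ) (h : ℍ → ℝ) (e t : ℝ) : Set (SL(2, ℝ) × ℝ) := {p | e ≤ |avP D h t p - mean F h|}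

/-- small Lipschitz perturbations of the potential -/
structure Sm (Γ : Subgroup SL(2, ℝ)) (κ : ℝ) (R : ℝ) (f : ℍ → ℝ) : Prop where
  inv : QU.Inv Γ f
  bd : ∀ z, |f z| ≤ κ / R
  lip : ∀ z w, |f z - f w| ≤ κ / R * dist z w

/-- the eigenfunctions: `φ` is an eigenfunction of the metric `U e^f g` with frequency close to `R` -/
structure Eg (Γ : Subgroup SL(2, ℝ)) (U : ℍ → ℝ) (κ R : ℝ) (f : ℍ → ℝ) (φ : ℍ → ℂ) : Prop where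
  cd : QU.CD 2 φ
  inv : ∀ (γ : Γ) (z : ℍ), φ (γ • z) = φ z
  sm : Sm Γ κ R f
  eq : ∃ μ : ℝ, 0 < μ ∧ |Real.sqrt μ - R| ≤ R ^ (-(1 / 100) : ℝ) ∧ ∀ z, QU.lap φ z = ((μ * Real.exp (f z) * U z : ℝ) : ℂ) * φ z

end

end Pool.Agent.VQ
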