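import Pool.Agent.helper74.VQ.SpecB
import Pool.Agent.helper11.VQ.Spec3i

/-!
# Project VQ (MP_07c750_an), block 2b: families of packets, energy estimates, the small step, rows `vq:X`

RULES: as in `Defs.lean`. Row `vq:XXX`: file `Pool/Agent/<seat>/VQ/XXX.lean`, `import Pool.Agent.helper74.VQ.SpecC`, theorem `XXX_proof : XXX_stmt` (rows in `from` may be hypotheses), auxiliary lemmas prefixed `XXX_`.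
`FLM` = the flow at fixed energy preserves `mG`, `FLA` = additivity and equivariance, `FLG` = Gronwall: rows of block FL (helper80); until they exist use the local statements `HFM`, `HFA`, `HFG` below as hypotheses.
-/

open scoped MatrixGroups ContDiff Topology UpperHalfPlane ComplexConjugate ENNReal
open UpperHalfPlane MeasureTheory Filter Set

namespace Pool.Agent.VQ

open Pool.Agent.RS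

noncomputable section

/-- the flow at fixed energy preserves the measure (block FL) -/
def HFM_stmt : Prop := ∀ (Γ : Subgroup SL(2, ℝ)) (δ : ℝ) (B : ℕ → ℝ) (D : Dyn), OKD Γ δ B D → δ ≤ 1 / 10 → ∀ E t : ℝ, |E| ≤ 1 / 8 → MeasurePreserving (D.fl E t) mG mG

/-- additivity and equivariance (block FL) -/
def HFA_stmt : Prop := ∀ (Γ : Subgroup SL(2, ℝ)) (δ : ℝ) (B : ℕ → ℝ) (D : Dyn), OKD Γ δ B D → δ ≤ 1 / 10 → ∀ E s t : ℝ, |E| ≤ 1 / 8 → ∀ g : SL(2, ℝ), D.fl E (s + t) g = D.fl E s (D.fl E t g) ∧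
  (∀ γ : Γ, D.fl E t ((γ : SL(2, ℝ)) * g) = (γ : SL(2, ℝ)) * D.fl E t g) ∧ D.fl E t (-g) = -D.fl E t g ∧ dist (D.fl E t g • I : ℍ) (g • I) ≤ 6 / 5 * |t|

/-- Gronwall for two energies (block FL); `C` is absolute -/
def HFG_stmt : Prop := ∃ C : ℝ, 1 ≤ C ∧ ∀ (Γ : Subgroup SL(2, ℝ)) (δ : ℝ) (B : ℕ → ℝ) (D : Dyn), OKD Γ δ B D → δ ≤ 1 / 10 → ∀ (t s : ℝ) (p q : SL(2, ℝ) × ℝ), |p.2| ≤ 1 / 8 → |q.2| ≤ 1 / 8 → 0 < s → C * Real.exp (C * |t|) * s ≤ 1 → Nb s p q →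
  Nb (C * Real.exp (C * |t|) * s) (D.ph t p) (D.ph t q)

/-- families of packets at the time `t` -/
structure Fa (Γ : Subgroup SL(2, ℝ)) (D : Dyn) (K : ℕ) (η m R t : ℝ) (f : SL(2, ℝ) × ℝ → ℂ → ℂ) : Prop where
  cont : ContinuousOn (fun x : (SL(2, ℝ) × ℝ) × ℂ => f x.1 x.2) {x | |x.1.2| ≤ 1 / 8}
  inv : ∀ (γ : Γ) (p : SL(2, ℝ) × ℝ), f ((γ : SL(2, ℝ)) * p.1, p.2) = f p
  pk : ∀ p ∈ GW 2 R, Pk K η m R (rho D.U p.2 (D.fl p.2 t p.1)) (f p)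

/-- the packet of `p` placed on `ℍ` -/
def pF (D : Dyn) (t : ℝ) (f : SL(2, ℝ) × ℝ → ℂ → ℂ) (p : SL(2, ℝ) × ℝ) (z : ℍ) : ℂ := f p (cd ((D.fl p.2 t p.1)⁻¹ • z))

/-- synthesis -/
def sF (D : Dyn) (R t : ℝ) (f : SL(2, ℝ) × ℝ → ℂ → ℂ) (v : SL(2, ℝ) × ℝ → ℂ) (z : ℍ) : ℂ := ∫ q in GW 2 R, v q * pF D t f q z ∂mP

/-- analysis (on the window) -/
def aF (D : Dyn) (R t : ℝ) (f : SL(2, ℝ) × ℝ → ℂ → ℂ) (φ : ℍ → ℂ) : SL(2, ℝ) × ℝ → ℂ := (GW 2 R).indicator fun p => ∫ z : ℍ, φ z * conj (pF D t f p z)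

/-- the operator with the kernel `K` -/
def Op (K : SL(2, ℝ) × ℝ → SL(2, ℝ) × ℝ → ℂ) (v : SL(2, ℝ) × ℝ → ℂ) (p : SL(2, ℝ) × ℝ) : ℂ := ∫ q, K p q * v q ∂mP

/-- the packets at time `0` as a family -/
def fG (D : Dyn) (ch : ℝ → ℝ) (ζ R : ℝ) (p : SL(2, ℝ) × ℝ) (v : ℂ) : ℂ := ((cR ch ζ R * b0 ch ζ R v : ℝ) : ℂ) * Complex.exp (((R * rho D.U p.2 p.1 * v.re : ℝ) : ℂ) * Complex.I)

/-! ## Volumes -/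

/-- **Row VBO** (volume of boxes; medium; from RS.GMG, VCD, VTA; pure). `g ∈ Bo s`, `g = toSL2R z * kM θ`: `dist z i ≤ C s`, `|e^(2iθ) - 1| ≤ C s`: by RS.GMG the measure is at most `C s² · C s`. -/
def VBO_stmt : Prop := ∃ C : ℝ, 1 ≤ C ∧ (∀ s : ℝ, 0 < s → s ≤ 1 / 2 → mG (Bo s) ≤ ENNReal.ofReal (C * s ^ 3)) ∧ (∀ s, MeasurableSet (Bo s)) ∧
  (∀ (s : ℝ) (g : SL(2, ℝ)), 0 < s → s ≤ 1 / 2 → g ∈ Bo s → dist (g • I : ℍ) I ≤ C * s) ∧ mG {g : SL(2, ℝ) | dist (g • I : ℍ) I ≤ 3} ≤ ENNReal.ofReal C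

/-- **Row VNV** (volumes of neighbours; medium; from VBO, VDM, VUB, HFM, RS.GLI). For fixed `E' = q.2` substitute `g' = fl E' t' q.1` (HFM), then left translation by `h⁻¹` (GLI). If `h⁻¹ g' ∈ Bo s` and `|ρ1 - rho U E' g'| < s` then `|2 E' - (ρ1² - U(h i))| ≤ 4 s + |U (g' i) - U (h i)| ≤ C s`: an interval of length `C s` for `E'`. -/
def VNV_stmt : Prop := ∃ C : ℝ, 1 ≤ C ∧ ∀ (Γ : Subgroup SL(2, ℝ)) (δ : ℝ) (B : ℕ → ℝ) (D : Dyn), OKD Γ δ B D → δ ≤ 1 / 10 → ∀ (R : ℝ), 2 * R ^ (-(1 / 4) : ℝ) ≤ 1 / 8 → 1 ≤ R → ∀ (h : SL(2, ℝ)) (ρ1 t s : ℝ), 0 < s → s ≤ 1 / 4 → 0 ≤ ρ1 → ρ1 ≤ 2 →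
  mP {q | q ∈ GW 2 R ∧ h⁻¹ * D.fl q.2 t q.1 ∈ Bo s ∧ |ρ1 - rho D.U q.2 (D.fl q.2 t q.1)| < s} ≤ ENNReal.ofReal (C * s ^ 4) ∧
  (∀ E : ℝ, mP {q | q ∈ GW 2 R ∧ h⁻¹ * D.fl q.2 t q.1 ∈ Bo s ∧ |E - q.2| < s} ≤ ENNReal.ofReal (C * s ^ 4)) ∧
  mP {q | q ∈ GW 2 R ∧ dist (h • I : ℍ) (D.fl q.2 t q.1 • I) ≤ 2} ≤ ENNReal.ofReal C

/-! ## Families -/

/-- **Row VFS** (Schur bound for the Gram kernel; medium; from VOV, VNV, VUB). For `p` fixed: the `q` with `(fl p)⁻¹ fl q ∈ Bo s`, `|ρ_p - ρ_q| < s`, `s = R^(-1/2+Cη)`, contribute `≤ m m' R^(-1+3η) · C s⁴`; the others only if the distance of the base points is `≤ 1`: `m m' R^(-M) · C` with `M = 4`. Symmetric in the two families (conjugate the integral). -/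
def VFS_stmt : Prop := ∃ C : ℝ, 1 ≤ C ∧ ∀ η : ℝ, 0 < η → C * η ≤ 1 → ∃ (K : ℕ) (R0 : ℝ), 1 ≤ R0 ∧ ∀ (R δ m m' t t' : ℝ) (Γ : Subgroup SL(2, ℝ)) (B : ℕ → ℝ) (D : Dyn) (f f' : SL(2, ℝ) × ℝ → ℂ → ℂ), R0 ≤ R → OKD Γ δ B D → δ ≤ 1 / 10 → 0 ≤ m → 0 ≤ m' → Fa Γ D K η m R t f → Fa Γ D K η m' R t' f' →
  (∀ p ∈ GW 2 R, ∫⁻ q in GW 2 R, ‖∫ z : ℍ, pF D t f p z * conj (pF D t' f' q z)‖ₑ ∂mP ≤ ENNReal.ofReal (m * m' * R ^ (-3 + C * η))) ∧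
  ∀ q ∈ GW 2 R, ∫⁻ p in GW 2 R, ‖∫ z : ℍ, pF D t f p z * conj (pF D t' f' q z)‖ₑ ∂mP ≤ ENNReal.ofReal (m * m' * R ^ (-3 + C * η))

/-- **Row VFR** (regularity of families; medium; from VDM, VBO, VUB, HFA). `pF` is continuous on `|E| ≤ 1/8`, bounded by `m`, `≠ 0` only for `dist (fl i) z ≤ 1`, hence `dist (p.1 i) z ≤ 6/5 |t| + 1`; `Γ`-invariant: `pF (γ p) (γ z) = pF p z` (HFA). Dominated convergence; Fubini and unfolding (VSH first part, or VDM) for the duality. -/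
def VFR_stmt : Prop := ∀ (Γ : Subgroup SL(2, ℝ)) (F : Set ℍ) (δ : ℝ) (B : ℕ → ℝ) (D : Dyn) (K : ℕ) (η m R t : ℝ) (f : SL(2, ℝ) × ℝ → ℂ → ℂ), Dm Γ F → OKD Γ δ B D → δ ≤ 1 / 10 → 0 < η → η ≤ 1 / 4 → 0 ≤ m → R ^ (-(1 / 2) + η) ≤ 1 / 4 → 2 * R ^ (-(1 / 4) : ℝ) ≤ 1 / 8 → 1 ≤ R → Fa Γ D K η m R t f →
  ContinuousOn (fun x : (SL(2, ℝ) × ℝ) × ℍ => pF D t f x.1 x.2) {x | |x.1.2| ≤ 1 / 8} ∧ (∀ p ∈ GW 2 R, ∀ z, ‖pF D t f p z‖ ≤ m ∧ (pF D t f p z ≠ 0 → dist (D.fl p.2 t p.1 • I : ℍ) z ≤ 1 ∧ dist (p.1 • I : ℍ) z ≤ 6 / 5 * |t| + 1)) ∧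
  (∀ (γ : Γ) (p : SL(2, ℝ) × ℝ) (z : ℍ), |p.2| ≤ 1 / 8 → pF D t f ((γ : SL(2, ℝ)) * p.1, p.2) (γ • z) = pF D t f p z) ∧
  (∀ v, FP Γ F v → FH Γ F (sF D R t f v)) ∧ (∀ φ, FH Γ F φ → FP Γ F (aF D R t f φ)) ∧
  ∀ φ v, FH Γ F φ → FP Γ F v → ∫ p in PW F 2 R, aF D R t f φ p * conj (v p) ∂mP = ∫ z in F, φ z * conj (sF D R t f v z)

/-- **Row VFB** (THE NORM OF A FAMILY; medium; from VFS, VFR, VSH, VDM). `‖sF v‖² = ∫_PW v(q) conj (G v)(q) dq` with the Gram kernel `G` (Fubini, unfolding), `‖G v‖ ≤ m² R^(-3+Cη) ‖v‖` (VSH, VFS with `f = f'`). Then duality (VFR): `‖aF φ‖² = ⟨φ, sF (aF φ)⟩ ≤ ‖φ‖ ‖sF‖ ‖aF φ‖`. -/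
def VFB_stmt : Prop := ∃ C : ℝ, 1 ≤ C ∧ ∀ η : ℝ, 0 < η → C * η ≤ 1 → ∃ (K : ℕ) (R0 : ℝ), 1 ≤ R0 ∧ ∀ (R δ m t : ℝ) (Γ : Subgroup SL(2, ℝ)) (F : Set ℍ) (B : ℕ → ℝ) (D : Dyn) (f : SL(2, ℝ) × ℝ → ℂ → ℂ), R0 ≤ R → Dm Γ F → OKD Γ δ B D → δ ≤ 1 / 10 → 0 ≤ m → Fa Γ D K η m R t f →
  (∀ v, FP Γ F v → nn F (sF D R t f v) ≤ (m * R ^ (-(3 / 2) + C * η)) ^ 2 * nP F 2 R v) ∧
  ∀ φ, FH Γ F φ → nP F 2 R (aF D R t f φ) ≤ (m * R ^ (-(3 / 2) + C * η)) ^ 2 * nn F φ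

/-! ## Energy estimates -/

/-- **Row VGR** (Green's formula in both settings; medium; from QU.GRN (compact support), VDM). Closed surface: take `χ ≥ 0` smooth with compact support and `Σ_γ χ (γ z) = 1` (or RS rows on `Γ \ G`: `lap` is a sum of squares of left invariant fields, RS.GIP); plane: compact support. -/
def VGR_stmt : Prop := ∀ (Γ : Subgroup SL(2, ℝ)) (F : Set ℍ) (φ ψ : ℍ → ℂ), Dm Γ F → FH Γ F φ → FH Γ F ψ → QU.CD 2 φ → QU.CD 2 ψ → ∫ z in F, QU.lap φ z * conj (ψ z) = ∫ z in F, φ z * conj (QU.lap ψ z)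

/-- **Row VEN** (ENERGY ESTIMATE; medium; from VGR). `N(s) = ∫_F |w s|²`, `N' = 2 Re ∫_F (- i Hop w + e) conj w = 2 Re ∫_F e conj w ≤ 2 ε √N` (`∫ Hop w conj w` is real by VGR). Differentiation under the integral: everything is continuous on `[0, T] × ℍ`, supports bounded in `F`. Then `√(N + k)` for `k > 0`, `k → 0`. -/
def VEN_stmt : Prop := ∀ (Γ : Subgroup SL(2, ℝ)) (F : Set ℍ) (U : ℍ → ℝ) (R T ε b : ℝ) (w e : ℝ → ℍ → ℂ), Dm Γ F → PU Γ U → 1 ≤ R → 0 ≤ T → 0 ≤ ε →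
  (∀ s ∈ Icc 0 T, FH Γ F (w s) ∧ QU.CD 2 (w s) ∧ FH Γ F (e s) ∧ nn F (e s) ≤ ε ^ 2) → (∀ s ∈ Icc 0 T, ∀ z ∈ F, (w s z ≠ 0 ∨ e s z ≠ 0) → dist z I ≤ b) →
  ContinuousOn (fun x : ℝ × ℍ => w x.1 x.2) (Icc 0 T ×ˢ univ) → ContinuousOn (fun x : ℝ × ℍ => QU.lap (w x.1) x.2) (Icc 0 T ×ˢ univ) → ContinuousOn (fun x : ℝ × ℍ => e x.1 x.2) (Icc 0 T ×ˢ univ) →
  (∀ s ∈ Icc 0 T, ∀ z, HasDerivAt (fun r => w r z) (-(Complex.I * Hop U R (w s) z) + e s z) s) →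
    Real.sqrt (nn F (w T)) ≤ Real.sqrt (nn F (w 0)) + T * ε

/-- **Row VFD** (evolution of synthesised beams; medium-long; from VPR, VRM, VFR, VPB, HFA). Differentiation under the integral over `q ∈ GW 2 R`: for `z` in a compact set and `|s| ≤ T` only the `q` in a compact set (`dist (q.1 i) z ≤ 6/5 T + 1`, `|E| ≤ 2 R^(-1/4)`) contribute, and `psi`, its first two `z`-derivatives, `Hop psi`, `Er` are continuous there (VPR). -/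
def VFD_stmt : Prop := ∀ (ch : ℝ → ℝ) (ζ ζ1 R δ : ℝ) (Γ : Subgroup SL(2, ℝ)) (F : Set ℍ) (B : ℕ → ℝ) (D : Dyn) (v : SL(2, ℝ) × ℝ → ℂ), CH ch → 0 < ζ → ζ ≤ ζ1 → ζ1 ≤ 1 / 8 → R ^ (-(1 / 2) + ζ1) ≤ 1 / 4 → 2 * R ^ (-(1 / 4) : ℝ) ≤ 1 / 8 → 2 ≤ R →
  Dm Γ F → OKD Γ δ B D → δ ≤ 1 / 10 → FP Γ F v → ∀ T : ℝ, 0 ≤ T → ∃ b : ℝ,
    (∀ s ∈ Icc 0 T, FH Γ F (fun z => ∫ q in GW 2 R, v q * psi D ch ζ ζ1 R s q z ∂mP) ∧ QU.CD 2 (fun z => ∫ q in GW 2 R, v q * psi D ch ζ ζ1 R s q z ∂mP) ∧ FH Γ F (sF D R s (fun q => Er D ch ζ ζ1 R s q) v)) ∧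
    (∀ s ∈ Icc 0 T, ∀ z ∈ F, ((∫ q in GW 2 R, v q * psi D ch ζ ζ1 R s q z ∂mP) ≠ 0 ∨ sF D R s (fun q => Er D ch ζ ζ1 R s q) v z ≠ 0) → dist z I ≤ b) ∧
    ContinuousOn (fun x : ℝ × ℍ => ∫ q in GW 2 R, v q * psi D ch ζ ζ1 R x.1 q x.2 ∂mP) (Icc 0 T ×ˢ univ) ∧
    ContinuousOn (fun x : ℝ × ℍ => QU.lap (fun z => ∫ q in GW 2 R, v q * psi D ch ζ ζ1 R x.1 q z ∂mP) x.2) (Icc 0 T ×ˢ univ) ∧
    ContinuousOn (fun x : ℝ × ℍ => sF D R x.1 (fun q => Er D ch ζ ζ1 R x.1 q) v x.2) (Icc 0 T ×ˢ univ) ∧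
    ∀ s ∈ Icc 0 T, ∀ z, HasDerivAt (fun r => ∫ q in GW 2 R, v q * psi D ch ζ ζ1 R r q z ∂mP)
      (-(Complex.I * Hop D.U R (fun z => ∫ q in GW 2 R, v q * psi D ch ζ ζ1 R s q z ∂mP) z) + -(Complex.I * sF D R s (fun q => Er D ch ζ ζ1 R s q) v z)) s

/-- **Row VD0** (the two cut-offs at `t = 0`; short-medium; from VCT, VSY, VUB, VBR). `psi` at `t = 0` is `c_R exp (-R|v|²/2) χ_(ζ1) exp (i R ρ v₁)`; the difference with `Gp` is `c_R exp (-R|v|²/2)(χ_(ζ1) - χ_ζ) exp (i R ρ v₁)`, which lives on `|v|² ≥ R^(2ζ-1)/2`, where the Gaussian and all its derivatives are `≤ R^(C k) exp (-R^(2ζ)/4)`.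
Part 2: the same for the difference of the beams with two cut-offs `ζ1 ≤ ζ2` at the time `t` (`|exp (i R qf/2)| ≤ exp (-R^(2ζ1) e^(-C|t|)/C)` for `|v| ≥ R^(-1/2+ζ1)/2`). -/
def VD0_stmt : Prop := ∃ C : ℝ, 1 ≤ C ∧ ∀ (ch : ℝ → ℝ) (K : ℕ) (e ζ ζ1 ζ2 M : ℝ), CH ch → Rg C e ζ ζ1 → ζ1 ≤ ζ2 → C * ζ2 ≤ 1 → ∃ R0 : ℝ, 1 ≤ R0 ∧ ∀ (R δ : ℝ) (Γ : Subgroup SL(2, ℝ)) (B : ℕ → ℝ) (D : Dyn) (p : SL(2, ℝ) × ℝ) (t : ℝ),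
  R0 ≤ R → OKD Γ δ B D → δ ≤ 1 / 10 → |p.2| ≤ 1 / 8 → |t| ≤ e * Real.log R →
    Pk K (C * ζ2) (R ^ (-M)) R (rho D.U p.2 p.1) (fun v => pv D ch ζ ζ2 R 0 p v - fG D ch ζ R p v) ∧
    Pk K (C * ζ2) (R ^ (-M)) R (rho D.U p.2 (D.fl p.2 t p.1)) (fun v => pv D ch ζ ζ2 R t p v - pv D ch ζ ζ1 R t p v)

/-- **Row VSA** (THE SYNTHESIS OF BEAMS IS A CONTRACTION; short-medium; from VEN, VFD, VFB, VPE, VPR, VD0, VQA, VUB). `w s = ∫ v psi(s)`, `‖w 0‖ ≤ ‖Qs v‖ + R^(-2) ‖v‖ ≤ (1 + R^(-2)) ‖v‖` (VD0, VFB), `e s = - i sF Er`, `‖e s‖ ≤ R^(1 + Cζ1 - 3/2 + Cζ1) ‖v‖` (VPE, VFB with the common `η = C ζ1`; monotonicity of `Pk` in `η`).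
Second part: duality (`P = ` the coefficients, `‖P‖² = ⟨φ, ∫ P psi⟩`). -/
def VSA_stmt : Prop := ∃ C : ℝ, 1 ≤ C ∧ ∀ (ch : ℝ → ℝ) (e ζ ζ1 : ℝ) (B : ℕ → ℝ), CH ch → Rg C e ζ ζ1 → ∃ R0 : ℝ, 1 ≤ R0 ∧ ∀ (R δ t : ℝ) (Γ : Subgroup SL(2, ℝ)) (F : Set ℍ) (D : Dyn), R0 ≤ R → Dm Γ F → OKD Γ δ B D → δ ≤ 1 / 10 → 0 ≤ t → t ≤ e * Real.log R →
  (∀ v, FP Γ F v → nn F (sF D R t (pv D ch ζ ζ1 R t) v) ≤ (1 + R ^ (-(1 / 4) : ℝ)) ^ 2 * nP F 2 R v) ∧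
  ∀ φ, FH Γ F φ → nP F 2 R (aF D R t (pv D ch ζ ζ1 R t) φ) ≤ (1 + R ^ (-(1 / 4) : ℝ)) ^ 2 * nn F φ

/-- **Row VFM** (the families of the project; short; from VPB, VPE, VPR, VUB). `pv`, `Er`, `fG` are families; `pF D t (pv ..) p z = psi .. p z`, `pF D 0 (fG ..) p z = Gp .. p z`. -/
def VFM_stmt : Prop := ∃ C : ℝ, 1 ≤ C ∧ ∀ (ch : ℝ → ℝ) (K : ℕ) (e ζ ζ1 : ℝ) (B : ℕ → ℝ), CH ch → Rg C e ζ ζ1 → ∃ R0 : ℝ, 1 ≤ R0 ∧ ∀ (R δ t : ℝ) (Γ : Subgroup SL(2, ℝ)) (D : Dyn), R0 ≤ R → OKD Γ δ B D → δ ≤ 1 / 10 → |t| ≤ e * Real.log R →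
  Fa Γ D K (C * ζ1) (R ^ (3 / 2 + C * ζ1)) R t (pv D ch ζ ζ1 R t) ∧ Fa Γ D K (C * ζ1) (R ^ (1 + C * ζ1)) R t (Er D ch ζ ζ1 R t) ∧ Fa Γ D K (C * ζ1) (R ^ (3 / 2 + C * ζ1)) R 0 (fG D ch ζ R) ∧
  (∀ p z, pF D t (pv D ch ζ ζ1 R t) p z = psi D ch ζ ζ1 R t p z) ∧ ∀ p z, pF D 0 (fG D ch ζ R) p z = Gp D.U ch ζ R p z

/-! ## The small step -/

/-- **Row VUL** (localisation of the kernels; medium; from VOV, VFM, VUB). `η = C z1`. If `Nb (A.r R)` fails then either `g1⁻¹ g2 ∉ Bo (R^(-1/2+Cη))` or `|ρ1 - ρ2| ≥ R^(-1/2+Cη)`: otherwise `|2 E1 - 2 E2| ≤ |ρ1² - ρ2²| + |U(g1 i) - U(g2 i)| ≤ C R^(-1/2+Cη) < 2 r` (`C z1 ≤ z2`). Size: `m1 m2 R^(-1+3η)`.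
Stated for beams up to the time `e log R` with any cut-off `ζ1`: the kernel `⟨Gp_q, psi_p(t)⟩` is `≤ R^(-M)` if `¬ Nb (R^(-1/2 + C ζ1)) (ph t p) q`. -/
def VUL_stmt : Prop := ∃ C : ℝ, 1 ≤ C ∧ ∀ (ch : ℝ → ℝ) (e ζ ζ1 M : ℝ) (B : ℕ → ℝ), CH ch → Rg C e ζ ζ1 → ∃ R0 : ℝ, 1 ≤ R0 ∧ ∀ (R δ t : ℝ) (Γ : Subgroup SL(2, ℝ)) (D : Dyn) (p q : SL(2, ℝ) × ℝ), R0 ≤ R → OKD Γ δ B D → δ ≤ 1 / 10 → 0 ≤ t → t ≤ e * Real.log R → p ∈ GW 2 R → q ∈ GW 2 R →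
  ‖∫ z : ℍ, conj (psi D ch ζ ζ1 R t p z) * Gp D.U ch ζ R q z‖ ≤ R ^ (2 + C * ζ1) ∧ ((∫ z : ℍ, conj (psi D ch ζ ζ1 R t p z) * Gp D.U ch ζ R q z) ≠ 0 → dist (D.fl p.2 t p.1 • I : ℍ) (q.1 • I) ≤ 1) ∧
  (¬Nb (R ^ (-(1 / 2) + C * ζ1)) (D.ph t p) q → ‖∫ z : ℍ, conj (psi D ch ζ ζ1 R t p z) * Gp D.U ch ζ R q z‖ ≤ R ^ (-M)) ∧
  ‖∫ z : ℍ, conj (Gp D.U ch ζ R p z) * Gp D.U ch ζ R q z‖ ≤ R ^ (2 + C * ζ1) ∧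
  (¬Nb (R ^ (-(1 / 2) + C * ζ1)) p q → ‖∫ z : ℍ, conj (Gp D.U ch ζ R p z) * Gp D.U ch ζ R q z‖ ≤ R ^ (-M))

/-- **Row VUM** (measurability etc.; medium; from VPR, VQS, VBO, VUL, HFA). The integrals are continuous in `(p, q)` on the window (dominated convergence), `Nb` is a measurable condition (`D.ph` is continuous on `|E| ≤ 1/8`). Invariance. Range: `us p q ≠ 0` implies `dist ≤ 6/5 σ + 1`, and more precisely `dist (fl i) (q i) ≤ C r`. `usm` by induction (Fubini; `KZ` = bounded, measurable, invariant, finite range).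
`usm k p q ≠ 0 → RC ..`, `Op (usm (k+1)) v = Op us (Op (usm k) v)`. -/
def VUM_stmt : Prop := ∃ C : ℝ, 1 ≤ C ∧ ∀ (ch : ℝ → ℝ) (B : ℕ → ℝ) (A : Prm), CH ch → Adm C A → ∃ R0 : ℝ, 1 ≤ R0 ∧ ∀ (R δ : ℝ) (Γ : Subgroup SL(2, ℝ)) (F : Set ℍ) (D : Dyn), R0 ≤ R → Dm Γ F → OKD Γ δ B D → δ ≤ 1 / 10 →
  KZ Γ dW (us D ch A R) ∧ (∀ k, KZ Γ dW (usm D ch A R k)) ∧ (∀ k p q, usm D ch A R k p q ≠ 0 → RC D (A.sg R) (A.r R) (Wi 2 R) k p q ∧ dW p q ≤ 2 * (k * A.sg R) + 1 / 2) ∧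
  (∀ p q, us D ch A R p q ≠ 0 → p ∈ GW 2 R ∧ q ∈ GW 2 R) ∧ (∀ k p q, usm D ch A R k p q ≠ 0 → p ∈ GW 2 R ∧ q ∈ GW 2 R) ∧
  (∀ (K : SL(2, ℝ) × ℝ → SL(2, ℝ) × ℝ → ℂ) (v : SL(2, ℝ) × ℝ → ℂ), KZ Γ dW K → (∀ p q, K p q ≠ 0 → p ∈ GW 2 R ∧ q ∈ GW 2 R) → FP Γ F v → FP Γ F (Op K v)) ∧
  ∀ (k : ℕ) (v : SL(2, ℝ) × ℝ → ℂ) (p : SL(2, ℝ) × ℝ), FP Γ F v → Op (usm D ch A R (k + 1)) v p = Op (us D ch A R) (Op (usm D ch A R k) v) p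

/-- **Row VUS** (Schur bounds; short-medium; from VUL, VNV, VBO). `‖us‖ ≤ R^(2 + C z1)`, and for fixed `p` (or `q`) the set of the neighbours has volume `≤ C r⁴ = C R^(-2 + 4 z2)` (VNV with `t = 0` or `t = σ`; for `q` fixed: `fl p ∈ q.1 · Bo⁻¹`, `Bo r` is invariant under inversion). -/
def VUS_stmt : Prop := ∃ C : ℝ, 1 ≤ C ∧ ∀ (ch : ℝ → ℝ) (B : ℕ → ℝ) (A : Prm), CH ch → Adm C A → ∃ R0 : ℝ, 1 ≤ R0 ∧ ∀ (R δ : ℝ) (Γ : Subgroup SL(2, ℝ)) (D : Dyn), R0 ≤ R → OKD Γ δ B D → δ ≤ 1 / 10 →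
  (∀ p, ∫⁻ q, ‖us D ch A R p q‖ₑ ∂mP ≤ ENNReal.ofReal (R ^ (C * A.z2))) ∧ (∀ q, ∫⁻ p, ‖us D ch A R p q‖ₑ ∂mP ≤ ENNReal.ofReal (R ^ (C * A.z2))) ∧
  (∀ p, ∫⁻ q, ‖pr D ch A R p q‖ₑ ∂mP ≤ ENNReal.ofReal (R ^ (C * A.z2))) ∧ ∀ q, ∫⁻ p, ‖pr D ch A R p q‖ₑ ∂mP ≤ ENNReal.ofReal (R ^ (C * A.z2))

/-- **Row VTS** (THE SMALL STEP; medium; from VUL, VSA, VQA, VUM, VSH, VNV, VFM, VFR). `Op us v (p) = ∫_z Qs v(z) conj psi_p(σ)(z) - ` (the part of the kernel outside the box), which is `≤ R^(-M)` and lives on `dist ≤ 1` (VUL), so its operator norm is `≤ C R^(-M)` (VSH, VNV third part). Norm: VSA second part for `φ = Qs v`, VQA. The same for `pr` with `QF (Qs v)`. -/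
def VTS_stmt : Prop := ∃ C : ℝ, 1 ≤ C ∧ ∀ (ch : ℝ → ℝ) (B : ℕ → ℝ) (A : Prm), CH ch → Adm C A → ∃ R0 : ℝ, 1 ≤ R0 ∧ ∀ (R δ : ℝ) (Γ : Subgroup SL(2, ℝ)) (F : Set ℍ) (D : Dyn) (v : SL(2, ℝ) × ℝ → ℂ), R0 ≤ R → Dm Γ F → OKD Γ δ B D → δ ≤ 1 / 10 → FP Γ F v →
  nP F 2 R (fun p => Op (us D ch A R) v p - ∫ z : ℍ, Qs D.U ch A.z R v z * conj (psi D ch A.z A.z1 R (A.sg R) p z)) ≤ R ^ (-8 : ℝ) * nP F 2 R v ∧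
  nP F 2 R (fun p => Op (pr D ch A R) v p - QF D.U ch A.z R (Qs D.U ch A.z R v) p) ≤ R ^ (-8 : ℝ) * nP F 2 R v ∧
  nP F 2 R (Op (us D ch A R) v) ≤ (1 + R ^ (-(1 / 5) : ℝ)) ^ 2 * nP F 2 R v ∧ nP F 2 R (Op (pr D ch A R) v) ≤ (1 + R ^ (-(1 / 5) : ℝ)) ^ 2 * nP F 2 R v

/-- **Row VTN** (the big step is a contraction; short; from VTS, VUM). Induction on `k ≤ m`; `(1 + R^(-1/5))^(m+1) ≤ 1 + R^(-1/6)`; the phase has modulus `1`. `thP` is measurable and invariant (flow continuous; for `|E| > 1/8` the flow is the identity). -/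
def VTN_stmt : Prop := ∃ C : ℝ, 1 ≤ C ∧ ∀ (ch : ℝ → ℝ) (B : ℕ → ℝ) (A : Prm), CH ch → Adm C A → ∃ R0 : ℝ, 1 ≤ R0 ∧ ∀ (R δ : ℝ) (Γ : Subgroup SL(2, ℝ)) (F : Set ℍ) (D : Dyn), R0 ≤ R → Dm Γ F → OKD Γ δ B D → δ ≤ 1 / 10 →
  (∀ (k : ℕ) (v : SL(2, ℝ) × ℝ → ℂ), k ≤ A.m → FP Γ F v → nP F 2 R (Op (usm D ch A R k) v) ≤ (1 + R ^ (-(1 / 6) : ℝ)) ^ 2 * nP F 2 R v) ∧
  ∀ (f : ℍ → ℝ) (t : ℝ), QU.Inv Γ f → Measurable (thP D f R t) ∧ (∀ (γ : Γ) (p : SL(2, ℝ) × ℝ), thP D f R t ((γ : SL(2, ℝ)) * p.1, p.2) = thP D f R t p) ∧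
    KZ Γ dW (KB D ch A R f) ∧ ∀ v, FP Γ F v → nP F 2 R (Op (KB D ch A R f) v) ≤ (1 + R ^ (-(1 / 6) : ℝ)) ^ 2 * nP F 2 R v

/-- **Row VI2** (final row I2; medium; from VTN, KPZ, DXZ-type facts on the phase space). `T v` for `v ∈ L²` bounded (bounded functions are dense in `L²` of a finite measure): extend `v` to a `Γ`-invariant function on `G × ℝ` (through the unique `γ` with `γ p ∈ DW F`; measurable because `Γ` is countable), cut off outside the window, so `FP Γ F v`;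
`∫_(DW F) perZ K x y v y d(mW) = ∫ K x y v y d(mW) = Op K v x` (KPZ second part), `nP F 2 R = ‖.‖²` on `L²((mW R).restrict (DW F))`. -/
def VI2_stmt : Prop := I2_stmt

end

end Pool.Agent.VQ
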