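import Pool.Agent.helper74.VQ.SpecA

/-!
# Project VQ (MP_07c750_an), block 2a: Gaussian beams, rows `vq:X`

RULES: as in `Defs.lean`. Row `vq:XXX`: file `Pool/Agent/<seat>/VQ/XXX.lean`, `import Pool.Agent.helper74.VQ.SpecB`, theorem `XXX_proof : XXX_stmt` (rows in `from` may be hypotheses), auxiliary lemmas prefixed `XXX_`.

Along the orbit `g(t) = fl E t g` the beam is `c_R a exp (i R q) χ`, `q(v) = S + ρ v₁ + ½ ⟨M v, v⟩` in the disc coordinate `v` of the moving frame, `M = P Y⁻¹`.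
-/

open scoped MatrixGroups ContDiff Topology UpperHalfPlane ComplexConjugate ENNReal
open UpperHalfPlane MeasureTheory Filter Set

namespace Pool.Agent.VQ

open Pool.Agent.RS

noncomputable section

/-- the vector field of `α A0 + β K0` in the disc coordinate -/
def XV (α β : ℝ) (v : ℂ) : ℂ := (α : ℂ) * (1 - v ^ 2 / 4) + (β : ℂ) * (Complex.I * v)

/-- the Laplacian of the plane -/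
def lp2 (A : ℂ → ℂ) (v : ℂ) : ℂ := fderiv ℝ (fderiv ℝ A) v 1 1 + fderiv ℝ (fderiv ℝ A) v Complex.I Complex.I

/-- the operator `(2R)⁻¹ (lap - R² U)` -/
def Hop (U : ℍ → ℝ) (R : ℝ) (φ : ℍ → ℂ) (z : ℍ) : ℂ := (((2 * R)⁻¹ : ℝ) : ℂ) * (QU.lap φ z - ((R ^ 2 * U z : ℝ) : ℂ) * φ z)

/-- the same operator in the disc coordinate of the frame `g` -/
def Lg (U : ℍ → ℝ) (R : ℝ) (g : SL(2, ℝ)) (A : ℂ → ℂ) (v : ℂ) : ℂ :=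
  (((2 * R)⁻¹ : ℝ) : ℂ) * (-(((1 - ‖v‖ ^ 2 / 4) ^ 2 : ℝ) : ℂ) * lp2 A v - ((R ^ 2 * Ug U g v : ℝ) : ℂ) * A v)

/-- the error of the beam, `i ∂_t - i X♯ ∇ - L` applied to `pv` -/
def Er (D : Dyn) (ch : ℝ → ℝ) (ζ ζ1 R t : ℝ) (p : SL(2, ℝ) × ℝ) (v : ℂ) : ℂ :=
  Complex.I * deriv (fun s => pv D ch ζ ζ1 R s p v) t -
    Complex.I * fderiv ℝ (pv D ch ζ ζ1 R t p) v (XV (rho D.U p.2 (D.fl p.2 t p.1)) (kap D.U p.2 (D.fl p.2 t p.1)) v) -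
    Lg D.U R (D.fl p.2 t p.1) (pv D ch ζ ζ1 R t p) v

/-! ## Derivatives of the potential along curves -/

/-- **Row VDN** (medium; from VCD; pure calculus). Let `γ' = γ ω` at `t`, `ω = [[x/2, b], [c, -x/2]]`, `y = (x, -(b+c))`. `Ug U (γ s) v = Ug U (γ t) (cd ((γ t)⁻¹ γ s • cdi v))` and `s ↦ cd ((γ t)⁻¹ γ s • cdi v)` has the derivative `ω♯ v` at `s = t`, `ω♯ v = x (1 - v²/4) + (b - c) i v - i (b + c)(1 + v²/4)`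
(Möbius transformations with the entries of `(γ t)⁻¹ γ s`), so `d/ds Ug U (γ s) v = D(Ug U (γ t)) v (ω♯ v)`; for `v = 0`: `d U(γ i) = n1 x - n2 (b + c)`; derivative in `v` at `0` (`ω♯` has the differential `(b - c) i`): `d n = hess y + (b - c) (n2, -n1)`. `n2 = fderiv .. I`, `i • i = -1`, `i • 1 = i`.
`2 ρ dρ = dU`, `kap = n2/(2 rho)`. -/
def VDN_stmt : Prop := ∀ (Γ : Subgroup SL(2, ℝ)) (δ : ℝ) (B : ℕ → ℝ) (U : ℍ → ℝ), Pot Γ δ B U → δ ≤ 1 / 10 → ∀ (γ : ℝ → SL(2, ℝ)) (t x b c E : ℝ), |E| ≤ 1 / 8 →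
  (∀ i j, HasDerivAt (fun s => (γ s).1 i j) (((γ t).1 * !![x / 2, b; c, -(x / 2)]) i j) t) →
  HasDerivAt (fun s => U (γ s • I)) (n1 U (γ t) * x - n2 U (γ t) * (b + c)) t ∧
  HasDerivAt (fun s => n1 U (γ s)) (hess U (γ t) 0 0 * x - hess U (γ t) 0 1 * (b + c) + (b - c) * n2 U (γ t)) t ∧
  HasDerivAt (fun s => n2 U (γ s)) (hess U (γ t) 1 0 * x - hess U (γ t) 1 1 * (b + c) - (b - c) * n1 U (γ t)) t ∧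
  HasDerivAt (fun s => rho U E (γ s)) ((n1 U (γ t) * x - n2 U (γ t) * (b + c)) / (2 * rho U E (γ t))) t ∧
  HasDerivAt (fun s => kap U E (γ s)) ((hess U (γ t) 1 0 * x - hess U (γ t) 1 1 * (b + c) - (b - c) * n1 U (γ t)) / (2 * rho U E (γ t)) -
    kap U E (γ t) * ((n1 U (γ t) * x - n2 U (γ t) * (b + c)) / (2 * rho U E (γ t))) / rho U E (γ t)) t

/-- **Row VUB** (bounds and continuity of the potential data; short-medium; from VCD; pure). `near`, `bd` at `v = 0`: `|U - 1| ≤ δ`, `|n1|, |n2| ≤ δ`, `|hess| ≤ δ` (operator norm of the second derivative), symmetric. Continuity in `g`: `Ug U g v` is a smooth function of `(entries of g, v)` near `v = 0`. Rotation by `kM π = -1` does not change them: `Ug U (-g) = Ug U g`. Invariance under `Γ`. -/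
def VUB_stmt : Prop := ∀ (Γ : Subgroup SL(2, ℝ)) (δ : ℝ) (B : ℕ → ℝ) (U : ℍ → ℝ), Pot Γ δ B U → δ ≤ 1 / 10 →
  PU Γ U ∧ (∀ g : SL(2, ℝ), |U (g • I) - 1| ≤ δ ∧ |n1 U g| ≤ δ ∧ |n2 U g| ≤ δ ∧ (∀ i j, |hess U g i j| ≤ δ) ∧ hess U g 0 1 = hess U g 1 0) ∧
  (∀ (E : ℝ) (g : SL(2, ℝ)), |E| ≤ 1 / 8 → 4 / 5 ≤ rho U E g ∧ rho U E g ≤ 6 / 5 ∧ rho U E g ^ 2 = U (g • I) + 2 * E ∧ |kap U E g| ≤ δ ∧ kap U E g * rho U E g = n2 U g / 2) ∧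
  (Continuous (n1 U) ∧ Continuous (n2 U) ∧ (∀ i j, Continuous fun g => hess U g i j) ∧ Continuous (fun p : ℝ × SL(2, ℝ) => rho U p.1 p.2) ∧
    ContinuousOn (fun p : ℝ × SL(2, ℝ) => kap U p.1 p.2) {p | |p.1| ≤ 1 / 8}) ∧
  (∀ (γ : Γ) (g : SL(2, ℝ)) (E : ℝ), Ug U ((γ : SL(2, ℝ)) * g) = Ug U g ∧ n1 U ((γ : SL(2, ℝ)) * g) = n1 U g ∧ n2 U ((γ : SL(2, ℝ)) * g) = n2 U g ∧ hess U ((γ : SL(2, ℝ)) * g) = hess U g ∧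
    rho U E ((γ : SL(2, ℝ)) * g) = rho U E g ∧ kap U E ((γ : SL(2, ℝ)) * g) = kap U E g) ∧
  (∀ (g : SL(2, ℝ)) (v : ℂ), ‖v‖ ≤ 1 → ContDiffAt ℝ ∞ (Ug U g) v ∧ |Ug U g v - Ug U g 0| ≤ δ * ‖v‖) ∧
  ∀ (g : SL(2, ℝ)) (v : ℂ), ‖v‖ ≤ 1 → |Ug U g v - (U (g • I) + n1 U g * v.re + n2 U g * v.im +
    (hess U g 0 0 * v.re ^ 2 + 2 * hess U g 0 1 * v.re * v.im + hess U g 1 1 * v.im ^ 2) / 2)| ≤ 8 * B 3 * ‖v‖ ^ 3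

/-! ## The linear system -/

/-- **Row VYA** (algebra of the linear system; medium; pure). Conserved: `Yᵀ P - Pᵀ Y = 0`, `Y* P - P* Y = 2i` (derivatives vanish: `KK` real symmetric, `JJᵀ = -JJ`; a function with zero derivative is constant; at `t = 0`: `Y = 1`, `P = i`). Hence `Y x = 0` implies `2 i |x|² = 0`, `det Y ≠ 0`;
`M = P Y⁻¹` is symmetric, `M - M* = 2 i (Y Y*)⁻¹`, so `Y Y*` is real and `Im ⟨M v, v⟩ = |Y⁻¹ v|²` for real `v`. `(det Y)' = tr (Y' Y⁻¹) det Y = tr (M + κ JJ) det Y = tr M det Y`, so `a² det Y` is constant `= 1`. -/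
def VYA_stmt : Prop := ∀ (Γ : Subgroup SL(2, ℝ)) (δ : ℝ) (B : ℕ → ℝ) (D : Dyn), OKD Γ δ B D → δ ≤ 1 / 10 → ∀ (E t : ℝ) (g : SL(2, ℝ)), |E| ≤ 1 / 8 →
  (D.Y E t g).det ≠ 0 ∧ (D.Y E t g).transpose * D.P E t g = (D.P E t g).transpose * D.Y E t g ∧
  (D.Y E t g).conjTranspose * D.P E t g - (D.P E t g).conjTranspose * D.Y E t g = (2 * Complex.I) • (1 : Matrix (Fin 2) (Fin 2) ℂ) ∧
  D.M E t g 0 1 = D.M E t g 1 0 ∧ D.a E t g ^ 2 * (D.Y E t g).det = 1 ∧ (∀ i j, ((D.Y E t g * (D.Y E t g).conjTranspose) i j).im = 0) ∧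
  ∀ v : ℂ, (qf (D.M E t g) v).im = ‖((D.Y E t g)⁻¹.mulVec ![(v.re : ℂ), (v.im : ℂ)]) 0‖ ^ 2 + ‖((D.Y E t g)⁻¹.mulVec ![(v.re : ℂ), (v.im : ℂ)]) 1‖ ^ 2

/-- **Row VYB** (bounds; medium; from VYA, VUB). Gronwall for `|Y|² + |P|²` (coefficients bounded by an absolute constant). `2 |x|² = |x* (Y* P - P* Y) x| ≤ 2 |Y x| |P x|` gives `|Y x| ≥ |x| e^(-C|t|)/C`. `|M| ≤ |P| |Y⁻¹|`. `|a|² = 1/|det Y|`. `Im ⟨M v, v⟩ = |Y⁻¹ v|² ≥ |v|²/|Y|²`. `C` is absolute. -/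
def VYB_stmt : Prop := ∃ C : ℝ, 1 ≤ C ∧ ∀ (Γ : Subgroup SL(2, ℝ)) (δ : ℝ) (B : ℕ → ℝ) (D : Dyn), OKD Γ δ B D → δ ≤ 1 / 10 → ∀ (E t : ℝ) (g : SL(2, ℝ)), |E| ≤ 1 / 8 →
  (∀ i j, ‖D.Y E t g i j‖ ≤ C * Real.exp (C * |t|) ∧ ‖D.P E t g i j‖ ≤ C * Real.exp (C * |t|) ∧ ‖(D.Y E t g)⁻¹ i j‖ ≤ C * Real.exp (C * |t|) ∧ ‖D.M E t g i j‖ ≤ C * Real.exp (C * |t|)) ∧
  ‖D.a E t g‖ ≤ C * Real.exp (C * |t|) ∧ (∀ v : ℂ, ‖v‖ ^ 2 ≤ C * Real.exp (C * |t|) * (qf (D.M E t g) v).im) ∧ |D.S E t g| ≤ C * |t|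

/-- real solutions of the linear system along the orbit of `g` -/
def Sol (D : Dyn) (E : ℝ) (g : SL(2, ℝ)) (y π : ℝ → Fin 2 → ℝ) : Prop := ∀ t : ℝ,
  HasDerivAt (fun s => y s 0) (π t 0 + kap D.U E (D.fl E t g) * y t 1) t ∧ HasDerivAt (fun s => y s 1) (π t 1 - kap D.U E (D.fl E t g) * y t 0) t ∧
  HasDerivAt (fun s => π s 0) (hess D.U (D.fl E t g) 0 0 / 2 * y t 0 + hess D.U (D.fl E t g) 0 1 / 2 * y t 1 + kap D.U E (D.fl E t g) * π t 1) t ∧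
  HasDerivAt (fun s => π s 1) (hess D.U (D.fl E t g) 1 0 / 2 * y t 0 + (hess D.U (D.fl E t g) 1 1 / 2 + rho D.U E (D.fl E t g) ^ 2) * y t 1 - kap D.U E (D.fl E t g) * π t 0) t

/-- **Row VYC** (medium; from VYA; pure). For a real solution let `ζ = y(0) - i π(0)`; then `y(t) = Re (Y(t) ζ)`, `π(t) = Re (P(t) ζ)` (same equation, same value at `0`: uniqueness of linear ODEs, Gronwall). `Y⁻¹ conj Y` is unitary (`Y Y*` is real), so `|Y⁻¹ y| = |ζ + Y⁻¹ conj (Y) conj ζ|/2 ≤ |ζ|`, and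
`det [y1, y2] = det Y det [Y⁻¹ y1, Y⁻¹ y2]`, Hadamard. -/
def VYC_stmt : Prop := ∀ (Γ : Subgroup SL(2, ℝ)) (δ : ℝ) (B : ℕ → ℝ) (D : Dyn), OKD Γ δ B D → δ ≤ 1 / 10 → ∀ (E : ℝ) (g : SL(2, ℝ)) (y1 π1 y2 π2 : ℝ → Fin 2 → ℝ), |E| ≤ 1 / 8 → Sol D E g y1 π1 → Sol D E g y2 π2 → ∀ t : ℝ,
  |y1 t 0 * y2 t 1 - y1 t 1 * y2 t 0| ≤ ‖(D.Y E t g).det‖ * (Real.sqrt (y1 0 0 ^ 2 + y1 0 1 ^ 2 + π1 0 0 ^ 2 + π1 0 1 ^ 2) * Real.sqrt (y2 0 0 ^ 2 + y2 0 1 ^ 2 + π2 0 0 ^ 2 + π2 0 1 ^ 2))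

/-- solutions `ω = [[x/2, b], [c, -x/2]]` of the variational equation `ω' = [ω, X] + dρ(ω) A0 + dκ(ω) K0` along the orbit of `g` -/
def VSol (D : Dyn) (E : ℝ) (g : SL(2, ℝ)) (x b c : ℝ → ℝ) : Prop := ∀ t r k dr dk : ℝ, r = rho D.U E (D.fl E t g) → k = kap D.U E (D.fl E t g) →
  dr = (n1 D.U (D.fl E t g) * x t - n2 D.U (D.fl E t g) * (b t + c t)) / (2 * r) →
  dk = (hess D.U (D.fl E t g) 1 0 * x t - hess D.U (D.fl E t g) 1 1 * (b t + c t) - (b t - c t) * n1 D.U (D.fl E t g)) / (2 * r) - k * dr / r →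
  HasDerivAt x (-(k * (b t + c t)) + dr) t ∧ HasDerivAt b (-(r * b t) + k * x t / 2 + dk / 2) t ∧ HasDerivAt c (r * c t + k * x t / 2 - dk / 2) t

/-- **Row VYV** (medium; from VDN, VUB). `y = (x, -(b+c))`, `π = (dr, r (b - c))`: `y₀' = π₀ + κ y₁`, `y₁' = ρ(b-c) - κ x`. `π₀ = (n1 y₀ + n2 y₁)/(2ρ)`: by VDN along the flow (`x = ρ`, `b = κ/2`, `c = -κ/2` there): `ρ' = n1/2`, `n1' = hess₀₀ ρ + κ n2`, `n2' = hess₁₀ ρ - κ n1`; a computation gives `π₀' = (hess y)₀/2 + κ π₁`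
(use `κ ρ = n2/2`), and `π₁' = (hess y)₁/2 + ρ² y₁ - κ π₀`. Second part: `ω = X` is a solution: `x = ρ`, `b = κ/2`, `c = -κ/2`. -/
def VYV_stmt : Prop := ∀ (Γ : Subgroup SL(2, ℝ)) (δ : ℝ) (B : ℕ → ℝ) (D : Dyn), OKD Γ δ B D → δ ≤ 1 / 10 → ∀ (E : ℝ) (g : SL(2, ℝ)), |E| ≤ 1 / 8 →
  (∀ x b c : ℝ → ℝ, VSol D E g x b c → Sol D E g (fun t => ![x t, -(b t + c t)])
    (fun t => ![(n1 D.U (D.fl E t g) * x t - n2 D.U (D.fl E t g) * (b t + c t)) / (2 * rho D.U E (D.fl E t g)), rho D.U E (D.fl E t g) * (b t - c t)])) ∧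
  VSol D E g (fun t => rho D.U E (D.fl E t g)) (fun t => kap D.U E (D.fl E t g) / 2) (fun t => -(kap D.U E (D.fl E t g) / 2))

/-- **Row VYU** (THE UNSTABLE EXPANSION IS AT MOST `C |det Y|`; short; from VYC, VYV, VUB). `y1` from `X`, `y2` from `ω`: the determinant is `-ρ (b + c)`. `C` absolute. -/
def VYU_stmt : Prop := ∃ C : ℝ, 1 ≤ C ∧ ∀ (Γ : Subgroup SL(2, ℝ)) (δ : ℝ) (B : ℕ → ℝ) (D : Dyn), OKD Γ δ B D → δ ≤ 1 / 10 → ∀ (E : ℝ) (g : SL(2, ℝ)) (x b c : ℝ → ℝ), |E| ≤ 1 / 8 → VSol D E g x b c → |x 0| ≤ 1 → |b 0| ≤ 1 → |c 0| ≤ 1 →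
  ∀ t : ℝ, |b t + c t| ≤ C * ‖(D.Y E t g).det‖

/-! ## Symbols -/

/-- `A` is smooth on the ball of radius `s` with `‖D^k A‖ ≤ m N^k` there for `k ≤ K` -/
def SyB (K : ℕ) (N m s : ℝ) (A : ℂ → ℂ) : Prop := ∀ v : ℂ, ‖v‖ ≤ s → ContDiffAt ℝ ∞ A v ∧ ∀ k ≤ K, ‖iteratedFDeriv ℝ k A v‖ ≤ m * N ^ k

/-- packets: `f v = exp (i R ρ v₁) A v`, `A` smooth, supported in `‖v‖ ≤ R^(-1/2+η)`, `‖D^k A‖ ≤ m R^((1/2+η) k)` for `k ≤ K` -/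
def Pk (K : ℕ) (η m R ρ : ℝ) (f : ℂ → ℂ) : Prop := ∃ A : ℂ → ℂ, ContDiff ℝ ∞ A ∧ (∀ v, A v ≠ 0 → ‖v‖ ≤ R ^ (-(1 / 2) + η)) ∧
  (∀ k ≤ K, ∀ v, ‖iteratedFDeriv ℝ k A v‖ ≤ m * (R ^ (1 / 2 + η)) ^ k) ∧ ∀ v, f v = Complex.exp (((R * ρ * v.re : ℝ) : ℂ) * Complex.I) * A v

/-- **Row VSY** (calculus of symbols; medium; pure). Leibniz (`norm_iteratedFDeriv_mul_le`: constant `2^K`); composition `exp ∘ ψ` with `Re ψ ≤ 0` (Faa di Bruno: `norm_iteratedFDeriv_comp_le`, applied to `exp` composed with `ψ - ψ v0`; or induction with Leibniz from `D (exp ψ) = exp ψ Dψ`); multiplication by a cut-off with compact support: the product is globally smooth. -/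
def VSY_stmt : Prop := ∀ K : ℕ, ∃ C : ℝ, 1 ≤ C ∧
  (∀ (N m1 m2 s : ℝ) (A1 A2 : ℂ → ℂ), 1 ≤ N → 0 ≤ m1 → 0 ≤ m2 → SyB K N m1 s A1 → SyB K N m2 s A2 → SyB K N (C * m1 * m2) s (fun v => A1 v * A2 v) ∧ SyB K N (m1 + m2) s (fun v => A1 v + A2 v)) ∧
  (∀ (N s : ℝ) (ψ : ℂ → ℂ), 1 ≤ N → (∀ v, ‖v‖ ≤ s → ContDiffAt ℝ ∞ ψ v ∧ (ψ v).re ≤ 0 ∧ ∀ k, 1 ≤ k → k ≤ K → ‖iteratedFDeriv ℝ k ψ v‖ ≤ N ^ k) → SyB K N C s (fun v => Complex.exp (ψ v))) ∧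
  ∀ (N m1 m2 s s' : ℝ) (A X : ℂ → ℂ), 1 ≤ N → 0 ≤ m1 → 0 ≤ m2 → s' < s → ContDiff ℝ ∞ X → (∀ v, X v ≠ 0 → ‖v‖ ≤ s') → (∀ k ≤ K, ∀ v, ‖iteratedFDeriv ℝ k X v‖ ≤ m1 * N ^ k) → SyB K N m2 s A →
    ContDiff ℝ ∞ (fun v => X v * A v) ∧ ∀ k ≤ K, ∀ v, ‖iteratedFDeriv ℝ k (fun v => X v * A v) v‖ ≤ C * m1 * m2 * N ^ k

/-- **Row VCT** (the cut-offs; short-medium; from VSY; pure). `v ↦ ch (R^(1-2ζ) ‖v‖²)` is smooth, supported in `‖v‖ ≤ R^(-1/2+ζ)`, `‖D^k‖ ≤ C R^((1/2-ζ) k) ≤ C (R^(1/2))^k` (scaling of a fixed function: `v ↦ ch (‖R^(1/2-ζ) v‖²)`); all its derivatives of order `≥ 1` vanish for `‖v‖ ≤ R^(-1/2+ζ)/2`.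
The profile: `b0 ch ζ R` has `‖D^k‖ ≤ C (R^(1/2))^k` (scaling by `R^(1/2)`: the Gaussian, times the cut-off). -/
def VCT_stmt : Prop := ∀ (ch : ℝ → ℝ) (K : ℕ), CH ch → ∃ C : ℝ, 1 ≤ C ∧ ∀ ζ R : ℝ, 0 ≤ ζ → ζ ≤ 1 / 2 → 1 ≤ R →
  ContDiff ℝ ∞ (fun v : ℂ => ((ch (R ^ (1 - 2 * ζ) * ‖v‖ ^ 2) : ℝ) : ℂ)) ∧ (∀ v : ℂ, ch (R ^ (1 - 2 * ζ) * ‖v‖ ^ 2) ≠ 0 → ‖v‖ ≤ R ^ (-(1 / 2) + ζ)) ∧
  (∀ k ≤ K, ∀ v : ℂ, ‖iteratedFDeriv ℝ k (fun v : ℂ => ((ch (R ^ (1 - 2 * ζ) * ‖v‖ ^ 2) : ℝ) : ℂ)) v‖ ≤ C * (R ^ (1 / 2 : ℝ)) ^ k) ∧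
  (∀ v : ℂ, ‖v‖ ≤ R ^ (-(1 / 2) + ζ) / 2 → ch (R ^ (1 - 2 * ζ) * ‖v‖ ^ 2) = 1) ∧
  ∀ k ≤ K, ∀ v : ℂ, ‖iteratedFDeriv ℝ k (fun v : ℂ => ((b0 ch ζ R v : ℝ) : ℂ)) v‖ ≤ C * (R ^ (1 / 2 : ℝ)) ^ k

/-- the condition on the exponents for the beams up to the time `e log R`: `C e ≤ ζ1`, `ζ ≤ ζ1`, `C ζ1 ≤ 1` -/
def Rg (C e ζ ζ1 : ℝ) : Prop := 0 ≤ e ∧ 0 < ζ ∧ ζ ≤ ζ1 ∧ C * e ≤ ζ1 ∧ C * ζ1 ≤ 1

/-- **Row VPB** (packets and beams are of class `Pk`; medium; from VYB, VUB, VSY, VCT, VBR). `Gp`: `A = c_R b0`, `c_R ≤ R^(3/2)` (VBR), constants are absorbed by `R^η`. Beams: `A = c_R a e^(iRS) χ exp (i R ⟨M v, v⟩/2)`: the exponent `ψ = i R qf M v/2` has `Re ψ = -(R/2) Im qf ≤ 0`, `‖Dψ‖ ≤ C R |M| |v|`, `‖D²ψ‖ ≤ C R |M|`, `D³ψ = 0`,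
`|M| ≤ C e^(C|t|) ≤ R^(C' e)`, `|v| ≤ R^(-1/2+ζ1)`: `‖D^k ψ‖ ≤ (R^(1/2+η))^k` for `η = C ζ1` (`R ≥ R0`). -/
def VPB_stmt : Prop := ∃ C : ℝ, 1 ≤ C ∧ ∀ (ch : ℝ → ℝ) (K : ℕ) (e ζ ζ1 : ℝ), CH ch → Rg C e ζ ζ1 → ∃ R0 : ℝ, 1 ≤ R0 ∧ ∀ (R δ : ℝ) (Γ : Subgroup SL(2, ℝ)) (B : ℕ → ℝ) (D : Dyn) (p : SL(2, ℝ) × ℝ) (t : ℝ),
  R0 ≤ R → OKD Γ δ B D → δ ≤ 1 / 10 → |p.2| ≤ 1 / 8 → |t| ≤ e * Real.log R →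
    (Pk K (C * ζ1) (R ^ (3 / 2 + C * ζ1)) R (rho D.U p.2 p.1) fun v => (((cR ch ζ R * b0 ch ζ R v : ℝ)) : ℂ) * Complex.exp (((R * rho D.U p.2 p.1 * v.re : ℝ) : ℂ) * Complex.I)) ∧
    Pk K (C * ζ1) (R ^ (3 / 2 + C * ζ1)) R (rho D.U p.2 (D.fl p.2 t p.1)) (pv D ch ζ ζ1 R t p)

/-- the remainder `- q_t + X♯ ∇q - (1-|v|²/4)² ∇q·∇q/2 + U/2` of the eikonal equation for `q = S + ρ v₁ + ⟨M v, v⟩/2`, `q_t = S' + ρ' v₁ + ⟨M' v, v⟩/2` with `S' = (ρ² + U(g i))/2`, `ρ' = n1/2`, `M' = KK - M² + κ (JJ M - M JJ)` -/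
def r3 (D : Dyn) (t : ℝ) (p : SL(2, ℝ) × ℝ) (v : ℂ) : ℂ :=
  let g := D.fl p.2 t p.1
  let M := D.M p.2 t p.1
  let ρ := rho D.U p.2 g
  let κ := kap D.U p.2 g
  let q1 : ℂ := (ρ : ℂ) + M 0 0 * (v.re : ℂ) + M 0 1 * (v.im : ℂ)
  let q2 : ℂ := M 1 0 * (v.re : ℂ) + M 1 1 * (v.im : ℂ);
  -((((ρ ^ 2 + D.U (g • I)) / 2 + n1 D.U g / 2 * v.re : ℝ) : ℂ) + qf (KK D.U p.2 g - M * M + (κ : ℂ) • (JJ * M - M * JJ)) v / 2) +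
    (((XV ρ κ v).re : ℝ) : ℂ) * q1 + (((XV ρ κ v).im : ℝ) : ℂ) * q2 - (((1 - ‖v‖ ^ 2 / 4) ^ 2 / 2 : ℝ) : ℂ) * (q1 ^ 2 + q2 ^ 2) + ((Ug D.U g v / 2 : ℝ) : ℂ)

/-- **Row VRM** (THE BEAM EQUATION; medium; from VYA, VDN, VUB, VLP, VDV; calculus). `q_t` is as in `r3` (`dS`; `ρ' = n1/2` along the flow by VDN; `M' = P' Y⁻¹ - P Y⁻¹ Y' Y⁻¹`). With `X = χ(v) = ch (R^(1-2ζ1) ‖v‖²)`:
`Er = c_R a e^(iRq) { X [R r3 + (i/2) tr M ((1-|v|²/4)² - 1)] - i X♯·∇X + (1-|v|²/4)² (ΔX/(2R) + i ∇X·∇q) }` (`a' = -½ tr M a`, `Δq = tr M`; `M` symmetric). Second part: `ψ_p(t)(z) = pv (cd (g(t)⁻¹ z))`, chain rule with VDV, and VLP. -/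
def VRM_stmt : Prop := ∀ (ch : ℝ → ℝ) (ζ ζ1 R δ : ℝ) (Γ : Subgroup SL(2, ℝ)) (B : ℕ → ℝ) (D : Dyn) (p : SL(2, ℝ) × ℝ) (t : ℝ), CH ch → 0 < ζ1 → ζ1 ≤ 1 / 8 → 2 ≤ R → OKD Γ δ B D → δ ≤ 1 / 10 → |p.2| ≤ 1 / 8 →
  (∀ v : ℂ, Er D ch ζ ζ1 R t p v = (cR ch ζ R : ℂ) * D.a p.2 t p.1 *
      Complex.exp (Complex.I * (R : ℂ) * (((D.S p.2 t p.1 + rho D.U p.2 (D.fl p.2 t p.1) * v.re : ℝ) : ℂ) + qf (D.M p.2 t p.1) v / 2)) *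
      (((ch (R ^ (1 - 2 * ζ1) * ‖v‖ ^ 2) : ℝ) : ℂ) * ((R : ℂ) * r3 D t p v + Complex.I / 2 * (D.M p.2 t p.1 0 0 + D.M p.2 t p.1 1 1) * (((1 - ‖v‖ ^ 2 / 4) ^ 2 - 1 : ℝ) : ℂ)) -
        Complex.I * fderiv ℝ (fun w : ℂ => ((ch (R ^ (1 - 2 * ζ1) * ‖w‖ ^ 2) : ℝ) : ℂ)) v (XV (rho D.U p.2 (D.fl p.2 t p.1)) (kap D.U p.2 (D.fl p.2 t p.1)) v) +
        (((1 - ‖v‖ ^ 2 / 4) ^ 2 : ℝ) : ℂ) * (lp2 (fun w : ℂ => ((ch (R ^ (1 - 2 * ζ1) * ‖w‖ ^ 2) : ℝ) : ℂ)) v / (2 * (R : ℂ)) +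
          Complex.I * (fderiv ℝ (fun w : ℂ => ((ch (R ^ (1 - 2 * ζ1) * ‖w‖ ^ 2) : ℝ) : ℂ)) v 1 * ((rho D.U p.2 (D.fl p.2 t p.1) : ℂ) + D.M p.2 t p.1 0 0 * (v.re : ℂ) + D.M p.2 t p.1 0 1 * (v.im : ℂ)) +
            fderiv ℝ (fun w : ℂ => ((ch (R ^ (1 - 2 * ζ1) * ‖w‖ ^ 2) : ℝ) : ℂ)) v Complex.I * (D.M p.2 t p.1 1 0 * (v.re : ℂ) + D.M p.2 t p.1 1 1 * (v.im : ℂ)))))) ∧
  ∀ z : ℍ, QU.CD 2 (psi D ch ζ ζ1 R t p) ∧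
    HasDerivAt (fun s => psi D ch ζ ζ1 R s p z) (-(Complex.I * Hop D.U R (psi D ch ζ ζ1 R t p) z) - Complex.I * Er D ch ζ ζ1 R t p (cd ((D.fl p.2 t p.1)⁻¹ • z))) t

/-- **Row VR3** (the remainder vanishes to third order; medium; from VUB, VYB). Algebra: the coefficients of order `≤ 2` of `r3` at `0` vanish (order `0`: `S' = ρ²/2 + U/2`; order `1`: `ρ' = n1/2`, `κ ρ = n2/2`; order `2`: the equation for `M'`, `KK = hess/2 + ρ² diag(0,1)`), what remains is a polynomial of degree `3..6` with coefficients bounded by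
`C (1 + |M|)²` plus `½ (U - Taylor polynomial of order 2)`, whose derivatives are bounded by `C B(n)`: `‖D^k r3 v‖ ≤ C' e^(C|t|) |v|^(3-k)` for `k ≤ 3` and `≤ C' e^(C|t|)` for `k ≤ K` (`C'` depends on `K, B`; `C` absolute). -/
def VR3_stmt : Prop := ∃ C : ℝ, 1 ≤ C ∧ ∀ (K : ℕ) (B : ℕ → ℝ), ∃ C' : ℝ, 1 ≤ C' ∧ ∀ (δ : ℝ) (Γ : Subgroup SL(2, ℝ)) (D : Dyn) (p : SL(2, ℝ) × ℝ) (t : ℝ), OKD Γ δ B D → δ ≤ 1 / 10 → |p.2| ≤ 1 / 8 → ∀ v : ℂ, ‖v‖ ≤ 1 →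
  ContDiffAt ℝ ∞ (r3 D t p) v ∧ (∀ k ≤ 3, ‖iteratedFDeriv ℝ k (r3 D t p) v‖ ≤ C' * Real.exp (C * |t|) * ‖v‖ ^ (3 - k)) ∧ ∀ k ≤ K, ‖iteratedFDeriv ℝ k (r3 D t p) v‖ ≤ C' * Real.exp (C * |t|)

/-- **Row VPE** (the error of the beam; medium; from VRM, VR3, VYB, VSY, VCT, VPB). On `|v| ≤ R^(-1/2+ζ1)`: `R r3` is a symbol of size `R^(-1/2+C ζ1)`, `tr M ((1-|v|²/4)² - 1)` of size `R^(-1+C ζ1)`. The terms with `∇X` live on `|v| ≥ R^(-1/2+ζ1)/2`, where `|exp(iRqf/2)| = exp (-(R/2) Im qf) ≤ exp (-R^(2 ζ1) e^(-C|t|)/C) ≤ exp (-R^(ζ1))` (`C e ≤ ζ1`), all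
derivatives are `≤ R^(C K) exp (-R^(ζ1))`, smaller than every power of `R`. The factor `e^(iRS)` has modulus `1`. -/
def VPE_stmt : Prop := ∃ C : ℝ, 1 ≤ C ∧ ∀ (ch : ℝ → ℝ) (K : ℕ) (e ζ ζ1 : ℝ) (B : ℕ → ℝ), CH ch → Rg C e ζ ζ1 → ∃ R0 : ℝ, 1 ≤ R0 ∧ ∀ (R δ : ℝ) (Γ : Subgroup SL(2, ℝ)) (D : Dyn) (p : SL(2, ℝ) × ℝ) (t : ℝ),
  R0 ≤ R → OKD Γ δ B D → δ ≤ 1 / 10 → |p.2| ≤ 1 / 8 → |t| ≤ e * Real.log R → Pk K (C * ζ1) (R ^ (1 + C * ζ1)) R (rho D.U p.2 (D.fl p.2 t p.1)) (Er D ch ζ ζ1 R t p)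

/-- **Row VPR** (regularity in `p`, `t`; medium; from VRM, VUB, VYA). `(p, t, v) ↦ pv`, `Er` are continuous on `|E| ≤ 1/8` (explicit formula VRM; `OKD.cfl, cY, cP, cS, ca`; `det Y ≠ 0`; continuity of `hess`, `n1`, `Ug` in `g`), and measurable in `(p, v)` on all of `(G × ℝ) × ℂ` for fixed `t` (outside `|E| ≤ 1/8` everything is `out`, restrict to measurable pieces: only
the part `|E| ≤ 1/8` is needed: multiply with the indicator function); `pv` and all its first two derivatives in `v` are continuous there as well. Invariance under `Γ` needs the equivariance of the flow and of `Y, P, S, a` (uniqueness of ODEs: both `fl E t (γ g)` and `γ fl E t g` solve the same equation). -/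
def VPR_stmt : Prop := ∀ (ch : ℝ → ℝ) (ζ ζ1 R δ : ℝ) (Γ : Subgroup SL(2, ℝ)) (B : ℕ → ℝ) (D : Dyn), CH ch → 0 < ζ1 → ζ1 ≤ 1 / 8 → 2 ≤ R → OKD Γ δ B D → δ ≤ 1 / 10 →
  ContinuousOn (fun x : ((SL(2, ℝ) × ℝ) × ℝ) × ℍ => psi D ch ζ ζ1 R x.1.2 x.1.1 x.2) {x | |x.1.1.2| ≤ 1 / 8} ∧
  ContinuousOn (fun x : ((SL(2, ℝ) × ℝ) × ℝ) × ℍ => QU.lap (psi D ch ζ ζ1 R x.1.2 x.1.1) x.2) {x | |x.1.1.2| ≤ 1 / 8} ∧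
  ContinuousOn (fun x : ((SL(2, ℝ) × ℝ) × ℝ) × ℍ => fderiv ℝ (QU.onC (psi D ch ζ ζ1 R x.1.2 x.1.1)) (x.2 : ℂ)) {x | |x.1.1.2| ≤ 1 / 8} ∧
  ContinuousOn (fun x : ((SL(2, ℝ) × ℝ) × ℝ) × ℍ => fderiv ℝ (fderiv ℝ (QU.onC (psi D ch ζ ζ1 R x.1.2 x.1.1))) (x.2 : ℂ)) {x | |x.1.1.2| ≤ 1 / 8} ∧
  ContinuousOn (fun x : ((SL(2, ℝ) × ℝ) × ℝ) × ℂ => pv D ch ζ ζ1 R x.1.2 x.1.1 x.2) {x | |x.1.1.2| ≤ 1 / 8} ∧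
  ContinuousOn (fun x : ((SL(2, ℝ) × ℝ) × ℝ) × ℂ => Er D ch ζ ζ1 R x.1.2 x.1.1 x.2) {x | |x.1.1.2| ≤ 1 / 8} ∧
  ∀ (γ : Γ) (p : SL(2, ℝ) × ℝ) (t : ℝ), D.fl p.2 t ((γ : SL(2, ℝ)) * p.1) = (γ : SL(2, ℝ)) * D.fl p.2 t p.1 ∧
    pv D ch ζ ζ1 R t ((γ : SL(2, ℝ)) * p.1, p.2) = pv D ch ζ ζ1 R t p ∧ Er D ch ζ ζ1 R t ((γ : SL(2, ℝ)) * p.1, p.2) = Er D ch ζ ζ1 R t p ∧
    ∀ z : ℍ, psi D ch ζ ζ1 R t ((γ : SL(2, ℝ)) * p.1, p.2) (γ • z) = psi D ch ζ ζ1 R t p z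

/-! ## Overlaps -/

/-- **Row VTA** (short-medium; from VCD; pure). `h = [[a, b], [c, d]]` acts in the disc coordinate by `v ↦ 2 (A v/2 + B)/(conj B v/2 + conj A)`, `A = (a + d + i (b - c))/2`, `B = (a - d - i (b + c))/2`, `|A|² - |B|² = 1`. So `cd (h⁻¹ • cdi v) = e^(-iα) (v - w0)/(1 - conj w0 v/4)`, `w0 = cd (h • I) = 2 B/conj A`, `e^(iα) = A/conj A`.
If `|w0|, |e^(iα) - 1| ≤ s` then `|B| ≤ C s`, `|Im A| ≤ C s`, `| |Re A| - 1| ≤ C s`: `h ∈ Bo (C s)`. -/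
def VTA_stmt : Prop := ∃ C : ℝ, 1 ≤ C ∧ ∀ h : SL(2, ℝ), dist (h • I : ℍ) I ≤ 1 → ∃ α : ℝ, (∀ v : ℂ, ‖v‖ < 2 → cd (h⁻¹ • cdi v) = Complex.exp (-((α : ℂ) * Complex.I)) * (v - cd (h • I)) / (1 - conj (cd (h • I)) * v / 4)) ∧
  ∀ s : ℝ, 0 < s → s ≤ 1 → ‖cd (h • I)‖ < s → ‖Complex.exp ((α : ℂ) * Complex.I) - 1‖ < s → h ∈ Bo (C * s)

/-- **Row VNS** (nonstationary phase; medium; pure). `K` integrations by parts in the direction `n = ξ/|ξ|`: `∂_n exp (i R ⟨ξ, v⟩) = i R |ξ| exp (..)`. The area of the ball is `π s² ≤ 4 s²`. -/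
def VNS_stmt : Prop := ∀ (K : ℕ) (R s m N : ℝ) (ξ : ℂ) (A : ℂ → ℂ), 0 < R → 0 < s → 0 ≤ m → 0 ≤ N → ξ ≠ 0 → ContDiff ℝ ∞ A → (∀ v, A v ≠ 0 → ‖v‖ ≤ s) → (∀ v, ‖iteratedFDeriv ℝ K A v‖ ≤ m * N ^ K) →
  ‖∫ v : ℂ, A v * Complex.exp (((R * (ξ.re * v.re + ξ.im * v.im) : ℝ) : ℂ) * Complex.I)‖ ≤ 4 * s ^ 2 * m * (N / (R * ‖ξ‖)) ^ K

/-- **Row VOV** (OVERLAPS ARE LOCALISED; medium-long; from VTA, VNS, VSY, VCM, VCD). `h = g1⁻¹ g2`, `z = g1 • cdi v`: the integral is `∫ f1(v) conj f2(τ v) jd v dv`, `τ v = cd (h⁻¹ • cdi v)`. Both supports have radius `R^(-1/2+η)`: if the integral is `≠ 0` then `dist (g1 I) (g2 I) ≤ 4 R^(-1/2+η)`, `|w0| ≤ 4 R^(-1/2+η)` (and the area of the support is `≤ 4 R^(-1+2η)`: part 1).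
`f1(v) conj f2(τ v) = A1(v) conj A2(τ v) exp (i R (ρ1 v₁ - ρ2 Re τ v))`, `τ v = e^(-iα)(v - w0) + e^(-iα)(v - w0)(conj w0 v/4)/(1 - ..)`: the last term has size `R^(-3/2+C η)` with derivatives `≤ R^(-3/2+Cη) (R^(1/2+η))^k`, so `exp (-i R ρ2 Re (last term))` is a symbol (VSY) and the phase is `R Re((conj ξ) v) + const`, `ξ = ρ1 - ρ2 e^(iα)`.
`A2 ∘ τ` has derivatives `≤ C m2 (2 R^(1/2+η))^k` (`τ` is a Möbius map, all its derivatives bounded). VNS with `N = R^(1/2+2η)`, `s = R^(-1/2+η)`: if `|ξ| ≥ R^(-1/2+4η)` the integral is `≤ C m1 m2 R^(-2ηK)`: choose `K ≥ (M+2)/η`. If `|ξ| < R^(-1/2+4η)` then `|ρ1 - ρ2|, |e^(iα) - 1| ≤ 4 R^(-1/2+4η)` (`ρ ≥ 1/2`) and `h ∈ Bo (R^(-1/2+5η))` by VTA. -/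
def VOV_stmt : Prop := ∃ C : ℝ, 1 ≤ C ∧ ∀ M η : ℝ, 0 < η → C * η ≤ 1 → ∃ (K : ℕ) (R0 : ℝ), 1 ≤ R0 ∧ ∀ (R ρ1 ρ2 m1 m2 : ℝ) (f1 f2 : ℂ → ℂ) (g1 g2 : SL(2, ℝ)), R0 ≤ R → ρ1 ∈ Icc (1 / 2) 2 → ρ2 ∈ Icc (1 / 2) 2 → 0 ≤ m1 → 0 ≤ m2 →
  Pk K η m1 R ρ1 f1 → Pk K η m2 R ρ2 f2 →
    ‖∫ z : ℍ, f1 (cd (g1⁻¹ • z)) * conj (f2 (cd (g2⁻¹ • z)))‖ ≤ m1 * m2 * R ^ (-1 + 3 * η) ∧
    ((∫ z : ℍ, f1 (cd (g1⁻¹ • z)) * conj (f2 (cd (g2⁻¹ • z)))) ≠ 0 → dist (g1 • I : ℍ) (g2 • I) ≤ 1) ∧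
    (¬(g1⁻¹ * g2 ∈ Bo (R ^ (-(1 / 2) + C * η)) ∧ |ρ1 - ρ2| < R ^ (-(1 / 2) + C * η)) → ‖∫ z : ℍ, f1 (cd (g1⁻¹ • z)) * conj (f2 (cd (g2⁻¹ • z)))‖ ≤ m1 * m2 * R ^ (-M))

end

end Pool.Agent.VQ
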