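import Pool.Agent.helper74.VQ.SpecC

/-!
# Project VQ (MP_07c750_an), block 2c: mass and density of the big step kernel, rows `vq:X`

RULES: as in `Defs.lean`. Row `vq:XXX`: file `Pool/Agent/<seat>/VQ/XXX.lean`, `import Pool.Agent.helper74.VQ.SpecE`, theorem `XXX_proof : XXX_stmt` (rows in `from` may be hypotheses), auxiliary lemmas prefixed `XXX_`.
Everything here is on the plane (`Γ = ⊥`, `F = univ`), for one beam.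
-/

open scoped MatrixGroups ContDiff Topology UpperHalfPlane ComplexConjugate ENNReal
open UpperHalfPlane MeasureTheory Filter Set

namespace Pool.Agent.VQ

open Pool.Agent.RS

noncomputable section

/-- **Row VOX** (short; pure). `OKD` only needs the invariance of the potential, which is trivial for `⊥`. Functions for `⊥`: the action is trivial. Second part: a bounded measurable function with bounded support is `FP ⊥ univ`; continuous with compact support is `FH ⊥ univ`. `mP.restrict (PW univ 2 R) = mP.restrict (GW 2 R)` (`dG univ = univ`). -/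
def VOX_stmt : Prop := (∀ (Γ : Subgroup SL(2, ℝ)) (δ : ℝ) (B : ℕ → ℝ) (D : Dyn), OKD Γ δ B D → OKD ⊥ δ B D) ∧ Dm ⊥ univ ∧
  (∀ (v : SL(2, ℝ) × ℝ → ℂ), Measurable v → (∃ b : ℝ, ∀ p, ‖v p‖ ≤ b) → (∃ b : ℝ, ∀ p, v p ≠ 0 → dist (p.1 • I : ℍ) I ≤ b) → FP ⊥ univ v) ∧
  (∀ φ : ℍ → ℂ, Continuous φ → (∃ b : ℝ, ∀ z, φ z ≠ 0 → dist z I ≤ b) → FH ⊥ univ φ) ∧ (∀ R : ℝ, PW univ 2 R = GW 2 R) ∧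
  ∀ (D : Dyn) (ch : ℝ → ℝ) (ζ ζ1 R t δ : ℝ) (Γ : Subgroup SL(2, ℝ)) (B : ℕ → ℝ) (p : SL(2, ℝ) × ℝ), CH ch → 0 < ζ1 → ζ1 ≤ 1 / 8 → 2 ≤ R → OKD Γ δ B D → δ ≤ 1 / 10 → |p.2| ≤ 1 / 8 → R ^ (-(1 / 2) + ζ1) ≤ 1 / 4 →
    FH ⊥ univ (psi D ch ζ ζ1 R t p) ∧ QU.CD 2 (psi D ch ζ ζ1 R t p)

/-- **Row VNP** (the norm of a beam; medium; from VYA, VYB, VBR, VCM, VCT). `∫_ℍ |psi|² = ∫ |pv|² jd dv ≤ (1 + C R^(-1+2ζ1)) c_R² |a|² ∫ exp (-R |Y⁻¹ v|²) dv`; `|Y⁻¹ v|² = ⟨Q v, v⟩` with the real positive matrix `Q = (Y Y*)⁻¹`, `det Q = |det Y|^(-2)`, so the integral is `π |det Y|/R` (Gaussian integral of a positive quadratic form in two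
variables: complete the square); `|a|² |det Y| = 1`, `c_R² π/R ≤ (R²/(2π))/(1 - R^(-1/2))`. Second part: `∫ |Gp_q| ≤ c_R ∫ exp (-R|v|²/2) jd ≤ 8 R^(1/2)`, and the `L²` norm of a packet of class `Pk`: sup times area. -/
def VNP_stmt : Prop := ∃ C : ℝ, 1 ≤ C ∧ ∀ (ch : ℝ → ℝ) (e ζ ζ1 : ℝ) (B : ℕ → ℝ), CH ch → Rg C e ζ ζ1 → ∃ R0 : ℝ, 1 ≤ R0 ∧ ∀ (R δ t : ℝ) (Γ : Subgroup SL(2, ℝ)) (D : Dyn) (p : SL(2, ℝ) × ℝ), R0 ≤ R → OKD Γ δ B D → δ ≤ 1 / 10 → |p.2| ≤ 1 / 8 → 0 ≤ t → t ≤ e * Real.log R →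
  nn univ (psi D ch ζ ζ1 R t p) ≤ (1 + R ^ (-(1 / 5) : ℝ)) * (R ^ 2 / (2 * Real.pi)) ∧ nn univ (Gp D.U ch ζ R p) ≤ R ^ 2 ∧ ∫ z : ℍ, ‖Gp D.U ch ζ R p z‖ ≤ 8 * R ^ (1 / 2 : ℝ) ∧
  (∀ z, ‖psi D ch ζ ζ1 R t p z‖ ≤ R ^ (3 / 2 : ℝ) * ‖D.a p.2 t p.1‖) ∧
  ∀ (K : ℕ) (η m ρ : ℝ) (f : ℂ → ℂ) (g : SL(2, ℝ)), 0 < η → η ≤ 1 / 8 → 0 ≤ m → R ^ (-(1 / 2) + η) ≤ 1 / 4 → Pk K η m R ρ f → nn univ (fun z => f (cd (g⁻¹ • z))) ≤ 8 * (m * R ^ (-(1 / 2) + η)) ^ 2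

/-- **Row VLE** (beams are localised in energy; medium; from VPB, VLP, VUB, VNP). In the coordinate `v`: `(lap - R² (U + 2E)) (exp (i R ρ v₁) A) = exp (i R ρ v₁) [(1-|v|²/4)² (R² ρ² A - 2 i R ρ ∂₁A - ΔA) - R² (U~ + 2E) A]`, `ρ² = U(g i) + 2E`: `|(1-|v|²/4)² ρ² - U~ - 2E| ≤ C |v|`, so the sup is `≤ R^(2 - 1/2 + Cζ1) R^(3/2 + Cζ1)`, area `R^(-1+Cζ1)`. -/
def VLE_stmt : Prop := ∃ C : ℝ, 1 ≤ C ∧ ∀ (ch : ℝ → ℝ) (e ζ ζ1 : ℝ) (B : ℕ → ℝ), CH ch → Rg C e ζ ζ1 → ∃ R0 : ℝ, 1 ≤ R0 ∧ ∀ (R δ t : ℝ) (Γ : Subgroup SL(2, ℝ)) (D : Dyn) (p : SL(2, ℝ) × ℝ), R0 ≤ R → OKD Γ δ B D → δ ≤ 1 / 10 → |p.2| ≤ 1 / 8 → |t| ≤ e * Real.log R →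
  nn univ (fun z => QU.lap (psi D ch ζ ζ1 R t p) z - ((R ^ 2 * (D.U z + 2 * p.2) : ℝ) : ℂ) * psi D ch ζ ζ1 R t p z) ≤ R ^ (5 + C * ζ1)

/-- **Row VAW** (RE-EXPANSION OF A BEAM; medium; from VEN, VFD, VFB, VFM, VPE, VD0, VQA, VEL, VLE, VNP, VOX, VRM, VPR). `v = QF (psi(s))`, `w r = ∫ v(q) psi_q(r) dq - psi_p(s + r)`. (1) `‖w 0‖ ≤ ‖Qs v - psi(s)‖ + R^(-2) ‖v‖`; by VQA and VEL (`E0 = p.2`; for `E ∉ Wi 2 R`: `(E - E0)² ≥ R^(-1/2)/256`) the first is `≤ (256 R^(1/2) R^(8ζ) (R^(-4) R^(5+Cζ2) + R^(-1) R²))^(1/2) ≤ R^(3/4 + C ζ2)`.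
(2) `∂_r w = -i Hop w + e`, `e = - i sF Er v + i Er_p(s + r)(cd ..)`, `‖e‖ ≤ R^(-1/2 + Cζ2) ‖v‖ + R^(1 + Cζ2 - 1/2 + Cζ2)`, `‖v‖ ≤ ‖psi(s)‖ ≤ R`. VEN on the plane. -/
def VAW_stmt : Prop := ∃ C : ℝ, 1 ≤ C ∧ ∀ (ch : ℝ → ℝ) (e ζ ζ2 : ℝ) (B : ℕ → ℝ), CH ch → Rg C e ζ ζ2 → ∃ R0 : ℝ, 1 ≤ R0 ∧ ∀ (R δ s t : ℝ) (Γ : Subgroup SL(2, ℝ)) (D : Dyn) (p : SL(2, ℝ) × ℝ), R0 ≤ R → OKD Γ δ B D → δ ≤ 1 / 10 → p.2 ∈ Wi (31 / 16) R → 0 ≤ s → 0 ≤ t → s + t ≤ e * Real.log R →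
  nn univ (fun z => sF D R t (pv D ch ζ ζ2 R t) (QF D.U ch ζ R (psi D ch ζ ζ2 R s p)) z - psi D ch ζ ζ2 R (s + t) p z) ≤ R ^ (8 / 5 : ℝ)

/-- **Row VAD** (one small step of the kernel; medium; from VAW, VUL, VNP, VD0, VFM, VNV, VUS, VUM, VFR). `us p x = 1[Nb] conj (QF psi_p(σ) (x))` with the cut-off `z1`; replace it by the cut-off `ζ2` (VD0 second part: error `R^(-M)`) and drop the box (VUL: `R^(-M)`, support of volume `≤ C`, `‖⟨..⟩‖ ≤ R^3`). Then `∫_x conj (QF psi_p(σ)(x)) ∫ conj psi_x(t) Gp_q dx = ∫ conj (sF ..)(z) Gp_q(z) dz`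
(Fubini), and VAW: the difference to `∫ conj psi_p(σ + t) Gp_q` is `≤ R^(4/5) ‖Gp_q‖ ≤ R^(9/5)`. -/
def VAD_stmt : Prop := ∃ C : ℝ, 1 ≤ C ∧ ∀ (ch : ℝ → ℝ) (B : ℕ → ℝ) (A : Prm) (e ζ2 : ℝ), CH ch → Adm C A → Rg C e A.z ζ2 → A.z1 ≤ ζ2 → ∃ R0 : ℝ, 1 ≤ R0 ∧ ∀ (R δ t : ℝ) (Γ : Subgroup SL(2, ℝ)) (D : Dyn) (p q : SL(2, ℝ) × ℝ), R0 ≤ R → OKD Γ δ B D → δ ≤ 1 / 10 → p.2 ∈ Wi (31 / 16) R → q ∈ GW 2 R → 0 ≤ t → A.sg R + t ≤ e * Real.log R →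
  ‖(∫ x, us D ch A R p x * (∫ z : ℍ, conj (psi D ch A.z ζ2 R t x z) * Gp D.U ch A.z R q z) ∂mP) - ∫ z : ℍ, conj (psi D ch A.z ζ2 R (A.sg R + t) p z) * Gp D.U ch A.z R q z‖ ≤ R ^ (15 / 8 : ℝ)

/-- **Row VAM** (induction; medium; from VAD, VUS, VUM, VUL, VD0). `e_k = sup ‖usm k p q - ∫ conj psi_p(kσ) Gp_q‖` over `|p.2| + k r ≤ (31/16) R^(-1/4)`, all `q ∈ GW 2 R`: `e_0 ≤ R^(-2)` (`pr` and the cut-offs), `e_(k+1) ≤ R^(C z2) e_k + R^(15/8)` (`us p x ≠ 0` implies `|x.2| ≤ |p.2| + r`). So `e_m ≤ (m+1) R^(C m z2) R^(15/8) ≤ R^(19/10)` because `C m z2 ≤ 1/50`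
(`Adm` with a larger `C`). Take `ζ2 = 1/C'` with a suitable `C'` and `e = m e3` (`Adm`: `m e3 ≤ C^(-4)`). -/
def VAM_stmt : Prop := ∃ C : ℝ, 1 ≤ C ∧ ∀ (ch : ℝ → ℝ) (B : ℕ → ℝ) (A : Prm), CH ch → Adm C A → ∃ ζ2 R0 : ℝ, A.z1 ≤ ζ2 ∧ 0 < ζ2 ∧ ζ2 ≤ 1 / 8 ∧ 1 ≤ R0 ∧ ∀ (R δ : ℝ) (Γ : Subgroup SL(2, ℝ)) (D : Dyn) (p q : SL(2, ℝ) × ℝ), R0 ≤ R → OKD Γ δ B D → δ ≤ 1 / 10 → p.2 ∈ Wi (3 / 2) R → q ∈ GW 2 R →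
  ‖ub D ch A R p q - ∫ z : ℍ, conj (psi D ch A.z ζ2 R (A.tu R) p z) * Gp D.U ch A.z R q z‖ ≤ R ^ (19 / 10 : ℝ) ∧
  ‖∫ z : ℍ, conj (psi D ch A.z ζ2 R (A.tu R) p z) * Gp D.U ch A.z R q z‖ ≤ 8 * R ^ 2 * ‖D.a p.2 (A.tu R) p.1‖

/-- **(I9) the density of the big step** (helper93's interface) -/
def IAM_stmt : Prop := ∀ (Γ : Subgroup SL(2, ℝ)) (ch : ℝ → ℝ), QU.SurfaceGroup Γ → CH ch → ∃ δ0 C : ℝ, 0 < δ0 ∧ 1 ≤ C ∧ ∀ (B : ℕ → ℝ) (A : Prm), Adm C A → ∃ R0 : ℝ, 1 ≤ R0 ∧ ∀ (R : ℝ) (D : Dyn), R0 ≤ R → OKD Γ δ0 B D →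
  ∀ p q : SL(2, ℝ) × ℝ, p.2 ∈ Wi (3 / 2) R → ‖ub D ch A R p q‖ ^ 2 * ‖(D.Y p.2 (A.tu R) p.1).det‖ ≤ R ^ (4 + C * A.z2)

/-- **Row VI9** (final row I9; short; from VAM, VYA, VYB, VUM). `‖ub‖² ≤ 2 (64 R⁴ |a|² + R^(19/5))`, `|a|² |det Y| = 1`, `|det Y| ≤ C e^(Cτ) ≤ R^(1/10)`; for `q ∉ GW 2 R` the kernel vanishes (VUM). -/
def VI9_stmt : Prop := IAM_stmt

/-- **Row VMA** (THE MASS OF THE ROWS; medium; from VNP, VQA, VQS, VTN, VUM, VOX). On the plane. `us p x = 1[Nb] conj (QF psi_p(σ)(x))`, so `∫_x |us p x|² ≤ nP univ 2 R (QF psi) ≤ nn univ psi ≤ (1 + R^(-1/5)) R²/(2π)`. For `r(q) = usm (k+1) p q = ∫ us p x usm k x q dx` take `v = conj r` (`FP ⊥ univ`): `∫ |r|² = ∫_x us p x Op (usm k) v (x) ≤ ‖us p‖ (1 + R^(-1/6)) ‖r‖` (VTN for `⊥`).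
Second part: `‖usm k‖ ≤ R^(C k z2) sup ‖pr‖ ≤ R^3` (VUS, VUL). -/
def VMA_stmt : Prop := ∃ C : ℝ, 1 ≤ C ∧ ∀ (ch : ℝ → ℝ) (B : ℕ → ℝ) (A : Prm), CH ch → Adm C A → ∃ R0 : ℝ, 1 ≤ R0 ∧ ∀ (R δ : ℝ) (Γ : Subgroup SL(2, ℝ)) (D : Dyn), R0 ≤ R → OKD Γ δ B D → δ ≤ 1 / 10 → ∀ (k : ℕ) (p : SL(2, ℝ) × ℝ), 1 ≤ k → k ≤ A.m →
  ∫⁻ q, ‖usm D ch A R k p q‖ₑ ^ 2 ∂mP ≤ ENNReal.ofReal ((1 + R ^ (-(1 / 7) : ℝ)) * (R ^ 2 / (2 * Real.pi))) ∧ ∀ q, ‖usm D ch A R k p q‖ ≤ R ^ 3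

/-- **Row VI4** (final row I4; short; from VUM, VMA). `Reach` is `RC` for `k = m`; range: `2 m σ + 1/2`. -/
def VI4_stmt : Prop := I4_stmt

end

end Pool.Agent.VQ
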